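import Mathlib
import Pool.Agent.W522.U.C1

/-!
# The conditions of the theorems
-/

namespace Pool.Agent.W522.U

open Module

variable {K : Type*} [Field K] {X : Type*} [AddCommGroup X] [Module K X]
  {Γ : Type*} [Group Γ] (R : Representation K Γ X) (χ : Γ →* K)

/-- For every strongly irreducible subspace `U` of dimension at least two there is a quadratic
unipotent element of the group which acts on `U` as a transvection. -/
def HasTransvections : Prop :=
  ∀ U, SI R U → 2 ≤ finrank K U →
    ∃ γ : Γ, (R γ - 1) * (R γ - 1) = 0 ∧ finrank K (U.map (R γ - 1)) = 1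

/-- The one-dimensional strongly irreducible subspaces are not self-dual. -/
def LinesNotSelfDual : Prop :=
  ∀ U, SI R U → finrank K U = 1 → ¬ Du R χ U U

/-- If a strongly irreducible subspace of dimension at least two is not self-dual, its twists by
characters (on subgroups of finite index) are isomorphic to it (on a subgroup of finite index). -/
def TwistFree : Prop :=
  ∀ U U', SI R U → SI R U' → 2 ≤ finrank K U → ¬ Du R χ U U →
    ∀ ψ : Γ → K, Tw R ψ U U' → Tw R (fun _ => 1) U U'

/-- For strongly irreducible subspaces `U i` which are pairwise neither isomorphic nor dual and not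
self-dual, the characters `det (U i) ^ 2 / χ ^ (dim (U i))` are multiplicatively independent, also
on subgroups of finite index. -/
def DetIndependent : Prop :=
  ∀ (s : ℕ) (U : Fin s → Submodule K X), (∀ i, SI R (U i)) →
    (∀ i j, ¬ Du R χ (U i) (U j)) → (∀ i j, Tw R (fun _ => 1) (U i) (U j) → i = j) →
    ∀ Δ : Subgroup Γ, Δ.FiniteIndex → ∀ (h : ∀ g ∈ Δ, ∀ i, ∀ u ∈ U i, R g u ∈ U i)
      (a : Fin s → ℤ), (∀ (g : Γ) (hg : g ∈ Δ),
        ∏ i, (LinearMap.det ((R g).restrict (h g hg i)) ^ 2 / χ g ^ finrank K (U i)) ^ a i = 1) →
      a = 0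

end Pool.Agent.W522.U
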