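import Mathlib

/-!
# A symplectic basis adapted to a grading
-/

set_option linter.unusedSectionVars false

namespace Pool.Agent.W522.U

open Module

noncomputable section

variable {K : Type*} [Field K] {Y : Type*} [AddCommGroup Y] [Module K Y]
  [FiniteDimensional K Y] (ω : Y →ₗ[K] Y →ₗ[K] K) (hsk : ∀ u v, ω u v = -ω v u)
  (halt : ∀ u, ω u u = 0)
  {C : Type*} (F : C → Submodule K Y) (st : C → C) (hst : ∀ c, st (st c) = c)
  (hF : ∀ c d, d ≠ st c → ∀ u ∈ F c, ∀ v ∈ F d, ω u v = 0)

include hsk halt hst hF in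
theorem sb_aux (n : ℕ) : ∀ Z : Submodule K Y, finrank K Z = n →
    (∀ z ∈ Z, (∀ w ∈ Z, ω z w = 0) → z = 0) → Z ≤ ⨆ c, (F c ⊓ Z) →
    ∃ (m : ℕ) (a b : Fin m → Y) (la lb : Fin m → C),
      (∀ k, a k ∈ F (la k) ⊓ Z) ∧ (∀ k, b k ∈ F (lb k) ⊓ Z) ∧
      (∀ k l, ω (a k) (a l) = 0) ∧ (∀ k l, ω (b k) (b l) = 0) ∧
      (∀ k l, k ≠ l → ω (a k) (b l) = 0) ∧ (∀ k, ω (a k) (b k) ≠ 0) ∧
      Z ≤ Submodule.span K (Set.range a ∪ Set.range b) := by
  induction n using Nat.strong_induction_on with
  | _ n ih =>
    intro Z hn hnd hZ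
    by_cases hbot : Z = ⊥
    · subst hbot
      exact ⟨0, Fin.elim0, Fin.elim0, Fin.elim0, Fin.elim0, fun k => k.elim0, fun k => k.elim0,
        fun k => k.elim0, fun k => k.elim0, fun k => k.elim0, fun k => k.elim0, bot_le⟩
    -- the first vector
    obtain ⟨c, a, ⟨haF, haZ⟩, ha0⟩ : ∃ c a, a ∈ F c ⊓ Z ∧ a ≠ 0 := by
      by_contra hcon
      push Not at hcon
      apply hbot
      rw [eq_bot_iff]
      refine hZ.trans (iSup_le fun c x hx => ?_)
      rw [Submodule.mem_bot]
      exact hcon c x hx
    -- the second vector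
    obtain ⟨d, b, ⟨hbF, hbZ⟩, hab⟩ : ∃ d b, b ∈ F d ⊓ Z ∧ ω a b ≠ 0 := by
      by_contra hcon
      push Not at hcon
      apply ha0
      apply hnd a haZ
      have h1 : Z ≤ LinearMap.ker (ω a) := by
        refine hZ.trans (iSup_le fun c x hx => ?_)
        exact hcon c x hx
      intro w hw
      exact h1 hw
    have hd : d = st c := by
      by_contra h
      exact hab (hF c d h a haF b hbF)
    have hc : c = st d := by rw [hd, hst]
    have hba : ω b a ≠ 0 := by
      rw [hsk]
      exact neg_ne_zero.2 hab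
    let Z' : Submodule K Y := Z ⊓ (LinearMap.ker (ω a) ⊓ LinearMap.ker (ω b))
    have hZ'Z : Z' ≤ Z := inf_le_left
    have hmem : ∀ z, z ∈ Z' ↔ z ∈ Z ∧ ω a z = 0 ∧ ω b z = 0 := by
      intro z
      simp only [Z', Submodule.mem_inf, LinearMap.mem_ker]
    -- the projection
    let pr : Y → Y := fun z => z - (ω b z / ω b a) • a - (ω a z / ω a b) • b
    have hprZ : ∀ z ∈ Z, pr z ∈ Z' := by
      intro z hz
      rw [hmem]
      refine ⟨Z.sub_mem (Z.sub_mem hz (Z.smul_mem _ haZ)) (Z.smul_mem _ hbZ), ?_, ?_⟩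
      · simp only [pr, map_sub, map_smul, halt, smul_eq_mul]
        field_simp
        ring
      · simp only [pr, map_sub, map_smul, halt, smul_eq_mul]
        field_simp
        ring
    have hprF : ∀ x, ∀ z ∈ F x ⊓ Z, pr z ∈ F x := by
      rintro x z ⟨hz, hzZ⟩
      refine (F x).sub_mem ((F x).sub_mem hz ?_) ?_
      · by_cases h : x = st d
        · rw [h, ← hc]
          exact (F c).smul_mem _ haF
        · have h1 : ω b z = 0 := hF d x h b hbF z hz
          rw [h1, zero_div, zero_smul]
          exact Submodule.zero_mem _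
      · by_cases h : x = st c
        · rw [h, ← hd]
          exact (F d).smul_mem _ hbF
        · have h1 : ω a z = 0 := hF c x h a haF z hz
          rw [h1, zero_div, zero_smul]
          exact Submodule.zero_mem _
    have hdec : ∀ z, z = pr z + (ω b z / ω b a) • a + (ω a z / ω a b) • b := by
      intro z
      simp only [pr]
      abel
    have hlt : finrank K Z' < n := by
      rw [← hn]
      refine Submodule.finrank_lt_finrank_of_lt (lt_of_le_of_ne hZ'Z fun h => hab ?_)
      have h1 : b ∈ Z' := by rw [h]; exact hbZ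
      exact ((hmem b).1 h1).2.1
    obtain ⟨m, a', b', la', lb', h1, h2, h3, h4, h5, h6, h7⟩ := ih _ hlt Z' rfl (by
      intro z hz hzw
      apply hnd z (hZ'Z hz)
      intro w hw
      rw [hdec w, map_add, map_add, map_smul, map_smul, hzw _ (hprZ w hw), hsk z a, hsk z b,
        ((hmem z).1 hz).2.1, ((hmem z).1 hz).2.2]
      simp) (by
      intro z hz
      have hz' : z ∈ ⨆ c, (F c ⊓ Z) := hZ (hZ'Z hz)
      have hprz : pr z = z := by
        simp only [pr]
        rw [((hmem z).1 hz).2.1, ((hmem z).1 hz).2.2, zero_div, zero_div, zero_smul, zero_smul,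
          sub_zero, sub_zero]
      rw [← hprz]
      -- `pr` is linear
      let prL : Y →ₗ[K] Y :=
        { toFun := pr
          map_add' := by
            intro x y
            simp only [pr, map_add, add_div, add_smul]
            abel
          map_smul' := by
            intro t x
            simp only [pr, map_smul, smul_eq_mul, RingHom.id_apply, smul_sub, smul_smul,
              mul_div_assoc] }
      have h8 : (⨆ c, (F c ⊓ Z)).map prL ≤ ⨆ c, (F c ⊓ Z') := by
        rw [Submodule.map_iSup]
        refine iSup_le fun x => ?_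
        rintro _ ⟨y, hy, rfl⟩
        exact Submodule.mem_iSup_of_mem x ⟨hprF x y hy, hprZ y hy.2⟩
      exact h8 (Submodule.mem_map_of_mem hz'))
    refine ⟨m + 1, Fin.cons a a', Fin.cons b b', Fin.cons c la', Fin.cons d lb', ?_, ?_, ?_, ?_,
      ?_, ?_, ?_⟩
    · intro k
      refine Fin.cases ?_ (fun k => ?_) k
      · exact ⟨haF, haZ⟩
      · exact ⟨(h1 k).1, hZ'Z (h1 k).2⟩
    · intro k
      refine Fin.cases ?_ (fun k => ?_) k
      · exact ⟨hbF, hbZ⟩
      · exact ⟨(h2 k).1, hZ'Z (h2 k).2⟩
    · intro k l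
      refine Fin.cases ?_ (fun k => ?_) k <;> refine Fin.cases ?_ (fun l => ?_) l
      · exact halt a
      · exact ((hmem _).1 (h1 l).2).2.1
      · rw [hsk]
        simp only [Fin.cons_zero, Fin.cons_succ]
        rw [((hmem _).1 (h1 k).2).2.1, neg_zero]
      · exact h3 k l
    · intro k l
      refine Fin.cases ?_ (fun k => ?_) k <;> refine Fin.cases ?_ (fun l => ?_) l
      · exact halt b
      · exact ((hmem _).1 (h2 l).2).2.2
      · rw [hsk]
        simp only [Fin.cons_zero, Fin.cons_succ]
        rw [((hmem _).1 (h2 k).2).2.2, neg_zero]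
      · exact h4 k l
    · intro k l
      refine Fin.cases ?_ (fun k => ?_) k <;> refine Fin.cases ?_ (fun l => ?_) l
      · intro h
        exact absurd rfl h
      · intro _
        exact ((hmem _).1 (h2 l).2).2.1
      · intro _
        rw [hsk]
        simp only [Fin.cons_zero, Fin.cons_succ]
        rw [((hmem _).1 (h1 k).2).2.2, neg_zero]
      · intro h
        exact h5 k l (fun h' => h (by rw [h']))
    · intro k
      refine Fin.cases ?_ (fun k => ?_) k
      · exact hab
      · exact h6 k
    · intro z hz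
      have h8 : Submodule.span K (Set.range a' ∪ Set.range b') ≤
          Submodule.span K (Set.range (Fin.cons a a' : Fin (m + 1) → Y) ∪
            Set.range (Fin.cons b b' : Fin (m + 1) → Y)) := by
        apply Submodule.span_mono
        rintro _ (⟨k, rfl⟩ | ⟨k, rfl⟩)
        · exact Or.inl ⟨k.succ, rfl⟩
        · exact Or.inr ⟨k.succ, rfl⟩
      rw [hdec z]
      refine Submodule.add_mem _ (Submodule.add_mem _ (h8 (h7 (hprZ z hz))) ?_) ?_
      · exact Submodule.smul_mem _ _ (Submodule.subset_span (Or.inl ⟨0, rfl⟩))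
      · exact Submodule.smul_mem _ _ (Submodule.subset_span (Or.inr ⟨0, rfl⟩))

include hsk halt hst hF in
/-- The adapted symplectic basis. -/
theorem exists_sb (hnd : ∀ z, (∀ w, ω z w = 0) → z = 0) (htop : ⨆ c, F c = ⊤) :
    ∃ (m : ℕ) (e : Basis (Fin m ⊕ Fin m) K Y) (lab : Fin m ⊕ Fin m → C),
      (∀ x, e x ∈ F (lab x)) ∧ (∀ x, lab x.swap = st (lab x)) ∧
      (∀ x y, y ≠ x.swap → ω (e x) (e y) = 0) ∧ (∀ x, ω (e x) (e x.swap) ≠ 0) := by
  obtain ⟨m, a, b, la, lb, h1, h2, h3, h4, h5, h6, h7⟩ := sb_aux ω hsk halt F st hst hF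
    (finrank K (⊤ : Submodule K Y)) ⊤ rfl (fun z _ h => hnd z fun w => h w trivial) (by
      rw [← htop]
      exact iSup_mono fun c => le_inf le_rfl (by rw [htop]; exact le_top))
  let v : Fin m ⊕ Fin m → Y := Sum.elim a b
  have h3' : ∀ x y : Fin m ⊕ Fin m, y ≠ x.swap → ω (v x) (v y) = 0 := by
    intro x y hxy
    rcases x with x | x <;> rcases y with y | y
    · exact h3 x y
    · exact h5 x y (fun h => hxy (by rw [h]; rfl))
    · change ω (b x) (a y) = 0
      rw [hsk, h5 y x (fun h => hxy (by rw [h]; rfl)), neg_zero]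
    · exact h4 x y
  have h6' : ∀ x : Fin m ⊕ Fin m, ω (v x) (v x.swap) ≠ 0 := by
    rintro (x | x)
    · exact h6 x
    · change ω (b x) (a x) ≠ 0
      rw [hsk]
      exact neg_ne_zero.2 (h6 x)
  have hli : LinearIndependent K v := by
    rw [Fintype.linearIndependent_iff]
    intro g hg x
    have h8 := congrArg (fun z => ω z (v x.swap)) hg
    simp only [map_sum, LinearMap.sum_apply, map_smul, LinearMap.smul_apply, smul_eq_mul,
      map_zero, LinearMap.zero_apply] at h8
    rw [Finset.sum_eq_single x] at h8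
    · exact (mul_eq_zero.1 h8).resolve_right (h6' x)
    · intro y _ hyx
      rw [h3' y x.swap, mul_zero]
      intro h
      apply hyx
      have h9 := congrArg Sum.swap h
      rw [Sum.swap_swap, Sum.swap_swap] at h9
      exact h9.symm
    · intro h
      exact absurd (Finset.mem_univ _) h
  have hsp : ⊤ ≤ Submodule.span K (Set.range v) := by
    have h8 : Set.range v = Set.range a ∪ Set.range b := Set.Sum.elim_range a b
    rw [h8]
    exact h7
  refine ⟨m, Basis.mk hli hsp, Sum.elim la lb, ?_, ?_, ?_, ?_⟩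
  · intro x
    rw [Basis.mk_apply]
    rcases x with x | x
    · exact (h1 x).1
    · exact (h2 x).1
  · have h8 : ∀ k, lb k = st (la k) := by
      intro k
      by_contra h
      exact h6 k (hF _ _ h _ (h1 k).1 _ (h2 k).1)
    rintro (x | x)
    · exact h8 x
    · change la x = st (lb x)
      rw [h8, hst]
  · intro x y hxy
    rw [Basis.mk_apply, Basis.mk_apply]
    exact h3' x y hxy
  · intro x
    rw [Basis.mk_apply, Basis.mk_apply]
    exact h6' x

end

end Pool.Agent.W522.U
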