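import Mathlib
import Pool.Agent.W522.U.A5
import Pool.Agent.H204R3.GP.DescentG

/-!
# The Lie algebra of the Tate forms on a direct sum
-/

set_option linter.unusedSectionVars false

namespace Pool.Agent.W522.U

open Module Pool.Agent.H204R3.SP Pool.Agent.H204R3.GP

noncomputable section

variable {K : Type*} [Field K] [CharZero K]
  {I : Type*} [Fintype I] [DecidableEq I] {E : I → Type*} [∀ i, AddCommGroup (E i)]
  [∀ i, Module K (E i)] [∀ i, FiniteDimensional K (E i)] {G : Type*} [Group G]
  (r : ∀ i, Representation K G (E i)) (χ : G →* K)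

/-- The product representation. -/
def piRep : Representation K G (∀ i, E i) where
  toFun g := LinearMap.pi fun i => (r i g).comp (LinearMap.proj i)
  map_one' := by
    ext y i
    simp
  map_mul' g h := by
    ext y i
    simp

theorem piRep_apply (g : G) (y : ∀ i, E i) (i : I) : piRep r g y i = r i g (y i) := rfl

theorem piRep_single (g : G) (i : I) (x : E i) :
    piRep r g (Pi.single i x) = Pi.single i (r i g x) := by
  funext j
  rw [piRep_apply]
  by_cases h : j = i
  · subst h
    rw [Pi.single_eq_same, Pi.single_eq_same]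
  · rw [Pi.single_eq_of_ne h, Pi.single_eq_of_ne h, map_zero]

/-- The block diagonal operators. -/
def blk : (∀ i, Module.End K (E i)) →ₗ[K] Module.End K (∀ i, E i) where
  toFun X := LinearMap.pi fun i => (X i).comp (LinearMap.proj i)
  map_add' _ _ := rfl
  map_smul' _ _ := rfl

theorem blk_apply (X : ∀ i, Module.End K (E i)) (y : ∀ i, E i) (i : I) :
    blk X y i = X i (y i) := rfl

theorem blk_single (X : ∀ i, Module.End K (E i)) (i : I) (x : E i) :
    blk X (Pi.single i x) = Pi.single i (X i x) := by
  funext j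
  rw [blk_apply]
  by_cases h : j = i
  · subst h
    rw [Pi.single_eq_same, Pi.single_eq_same]
  · rw [Pi.single_eq_of_ne h, Pi.single_eq_of_ne h, map_zero]

/-- The families of the Lie algebra of the Tate forms. -/
def hh : Submodule K (∀ i, Module.End K (E i)) := (lieT (piRep r) χ).comap blk

theorem mem_hh (X : ∀ i, Module.End K (E i)) : X ∈ hh r χ ↔ blk X ∈ lieT (piRep r) χ := Iff.rfl

theorem lieFam_hh : LieFam r (hh r χ) where
  br := by
    intro X hX Y hY
    have h1 := lieT_bracket (piRep r) χ hX hY
    exact h1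
  conj := by
    intro g X hX
    have h1 := lieT_conj (piRep r) χ g hX
    exact h1

variable {r χ} (ω : (∀ i, E i) →ₗ[K] (∀ i, E i) →ₗ[K] K) (halt : ∀ u, ω u u = 0)
  (hnd : ∀ u, (∀ w, ω u w = 0) → u = 0)
  (hωρ : ∀ g u v, ω (piRep r g u) (piRep r g v) = χ g * ω u v)
  (st : I → I) (hst : ∀ i, st (st i) = i)
  (hor : ∀ i j, j ≠ st i → ∀ (u : E i) (v : E j), ω (Pi.single i u) (Pi.single j v) = 0)

include halt in
theorem om_skew (u v : ∀ i, E i) : ω u v = -ω v u := by
  have h1 := halt (u + v)
  simp only [map_add, LinearMap.add_apply, halt, zero_add, add_zero] at h1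
  linear_combination h1

include hnd hωρ in
theorem lieT_comm' (P : Module.End K (∀ i, E i)) (hP : ∀ g v, P (piRep r g v) = piRep r g (P v)) :
    ∀ X ∈ lieT (piRep r) χ, ∀ v, X (P v) = P (X v) := by
  intro X hX v
  have hB : IsTate2 (piRep r) χ (ω.comp P) := by
    refine ⟨⊤, inferInstance, fun s _ u v => ?_⟩
    rw [LinearMap.comp_apply, LinearMap.comp_apply, hP s, hωρ]
  rw [← sub_eq_zero]
  apply hnd
  intro w
  have h1 := lieT_bil (piRep r) χ hB hX v w
  have h2 := lieT_sp (piRep r) χ ω hωρ hX (P v) w
  rw [LinearMap.comp_apply, LinearMap.comp_apply] at h1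
  rw [map_sub, LinearMap.sub_apply]
  linear_combination h2 - h1

include hnd hωρ in
/-- The elements of the Lie algebra are block diagonal. -/
theorem lieT_block {X : Module.End K (∀ i, E i)} (hX : X ∈ lieT (piRep r) χ) :
    ∃ X' ∈ hh r χ, X = blk X' := by
  let X' : ∀ i, Module.End K (E i) := fun i =>
    (LinearMap.proj i).comp (X.comp (LinearMap.single K E i))
  have h1 : X = blk X' := by
    refine LinearMap.pi_ext fun i x => ?_
    rw [blk_single]
    let P : Module.End K (∀ i, E i) := (LinearMap.single K E i).comp (LinearMap.proj i)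
    have hP : ∀ y, P y = Pi.single i (y i) := fun _ => rfl
    have h2 := lieT_comm' ω hnd hωρ P (by
      intro g v
      rw [hP, hP, piRep_single]
      rfl) X hX (Pi.single i x)
    rw [hP, hP, Pi.single_eq_same] at h2
    exact h2
  exact ⟨X', by rw [mem_hh, ← h1]; exact hX, h1⟩

/-- The pairing of two components. -/
def par (i j : I) : E i →ₗ[K] Dual K (E j) :=
  (ω.compl₁₂ (LinearMap.single K E i) (LinearMap.single K E j))

theorem par_apply (i j : I) (u : E i) (v : E j) :
    par ω i j u v = ω (Pi.single i u) (Pi.single j v) := rfl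

include hnd hor in
theorem par_inj (i j : I) (hj : j = st i) : Function.Injective (par ω i j) := by
  rw [injective_iff_map_eq_zero]
  intro u hu
  have h1 : (Pi.single i u : ∀ i, E i) = 0 := by
    apply hnd
    intro w
    rw [← Finset.univ_sum_single w, map_sum]
    refine Finset.sum_eq_zero fun k _ => ?_
    by_cases hk : k = st i
    · have h2 : k = j := by rw [hk, hj]
      subst h2
      exact congrArg (fun f : Dual K (E k) => f (w k)) hu
    · exact hor i k hk u (w k)
  have h2 := congrFun h1 i
  rwa [Pi.single_eq_same] at h2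

include hnd hor hst in
theorem finrank_st (i : I) : finrank K (E (st i)) = finrank K (E i) := by
  have h1 := LinearMap.finrank_le_finrank_of_injective (par_inj ω hnd st hor i (st i) rfl)
  have h2 := LinearMap.finrank_le_finrank_of_injective
    (par_inj ω hnd st hor (st i) i (hst i).symm)
  rw [Subspace.dual_finrank_eq] at h1 h2
  exact le_antisymm h2 h1

include hnd hor hst in
theorem par_bij (i j : I) (hj : j = st i) : Function.Bijective (par ω i j) := by
  have h1 := par_inj ω hnd st hor i j hj
  refine ⟨h1, ?_⟩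
  have h2 : finrank K (E i) = finrank K (Dual K (E j)) := by
    rw [Subspace.dual_finrank_eq, hj, finrank_st ω hnd st hst hor]
  exact (LinearMap.injective_iff_surjective_of_finrank_eq_finrank h2).1 h1

include hωρ in
theorem par_sim (i j : I) (g : G) (u : E i) (v : E j) :
    par ω i j (r i g u) (r j g v) = χ g * par ω i j u v := by
  rw [par_apply, par_apply, ← piRep_single r, ← piRep_single r, hωρ]

theorem chi_ne (g : G) : χ g ≠ 0 := by
  intro h
  have h1 : χ (g * g⁻¹) = 1 := by rw [mul_inv_cancel, map_one]
  rw [map_mul, h, zero_mul] at h1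
  exact zero_ne_one h1

variable (htw : ∀ i j, i ≠ j → 2 ≤ finrank K (E i) → 2 ≤ finrank K (E j) →
  ∀ (T : E i →ₗ[K] E j) (ψ : G → K), (∀ g u, T (r i g u) = ψ g • r j g (T u)) → T = 0)

include hnd hor hst hωρ htw in
/-- No twisted homomorphisms to the dual. -/
theorem no_dual (i j : I) (hij : i ≠ st j) (hi : 2 ≤ finrank K (E i)) (hj : 2 ≤ finrank K (E j))
    (T : E i →ₗ[K] Dual K (E j)) (ψ : G → K)
    (hT : ∀ g u v, T (r i g u) (r j g v) = ψ g * T u v) : T = 0 := by
  have hbij := par_bij ω hnd st hst hor (st j) j (hst j).symm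
  let B : E (st j) ≃ₗ[K] Dual K (E j) := LinearEquiv.ofBijective _ hbij
  have hB : ∀ w, B w = par ω (st j) j w := fun _ => rfl
  let T' : E i →ₗ[K] E (st j) := B.symm.toLinearMap.comp T
  have hBT : ∀ u, B (T' u) = T u := fun u => B.apply_symm_apply _
  have h1 := htw i (st j) hij hi (by rw [finrank_st ω hnd st hst hor]; exact hj) T'
    (fun g => ψ g * (χ g)⁻¹) (by
    intro g u
    apply B.injective
    rw [hBT, map_smul]
    ext v
    rw [LinearMap.smul_apply, hB, smul_eq_mul]
    have h2 := hT g u (r j g⁻¹ v)
    rw [r_inv'] at h2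
    rw [h2]
    have h3 := par_sim ω hωρ (st j) j g (T' u) (r j g⁻¹ v)
    rw [r_inv'] at h3
    rw [h3, ← hB, hBT]
    have := chi_ne (χ := χ) g
    field_simp)
  have h2 : T = B.toLinearMap.comp T' := by
    ext1 u
    exact (hBT u).symm
  rw [h2, h1, LinearMap.comp_zero]

variable (hirr : ∀ i, 2 ≤ finrank K (E i) → Irr (r i))
  (hnil : ∀ i, 2 ≤ finrank K (E i) → ∃ N ∈ lieT (piRep r) χ, N * N = 0 ∧
    ∃ (u : E i) (φ : Dual K (E i)), u ≠ 0 ∧ φ ≠ 0 ∧ ∀ x, N (Pi.single i x) i = φ x • u)

include halt hnd hωρ hst hor htw hirr hnil in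
theorem types_hh : Types r (hh r χ) (fun i => 2 ≤ finrank K (E i)) (fun i => st i = i)
    (fun i => par ω i i) χ where
  irr := hirr
  alt := fun i _ u => halt _
  inj := fun i hi => par_inj ω hnd st hor i i hi.symm
  sim := fun i _ g u v => par_sim ω hωρ i i g u v
  sp := by
    intro i _ X hX u v
    have h1 := lieT_sp (piRep r) χ ω hωρ hX (Pi.single i u) (Pi.single i v)
    rw [blk_single, blk_single] at h1
    exact h1
  nf := by
    intro i hi his β ψ hβ hsim
    have h1 := no_dual ω hnd hωρ st hst hor htw i i (fun h => his h.symm) hi hi β ψ hsim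
    have h2 : 0 < finrank K (E i) := by omega
    have _ : Nontrivial (E i) := Module.nontrivial_of_finrank_pos h2
    obtain ⟨u, hu⟩ := _root_.exists_ne (0 : E i)
    apply hu
    apply hβ
    rw [h1, LinearMap.zero_apply, LinearMap.zero_apply]
  nil := by
    intro i hi
    obtain ⟨N, hN, hN2, u, φ, hu, hφ, hNi⟩ := hnil i hi
    obtain ⟨N', hN', rfl⟩ := lieT_block ω hnd hωρ hN
    have h1 : ∀ j, N' j * N' j = 0 := by
      intro j
      ext x
      have h2 := congrArg (fun f : Module.End K (∀ i, E i) => f (Pi.single j x) j) hN2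
      simp only [Module.End.mul_apply, blk_single, Pi.single_eq_same, LinearMap.zero_apply,
        Pi.zero_apply] at h2
      exact h2
    have h2 : N' i = φ.smulRight u := by
      ext x
      have h3 := hNi x
      rw [blk_single, Pi.single_eq_same] at h3
      rw [h3, LinearMap.smulRight_apply]
    refine ⟨N', hN', h1, u, φ, hu, hφ, ?_, h2⟩
    have h3 := h1 i
    rw [h2] at h3
    obtain ⟨v, hv⟩ : ∃ v, φ v ≠ 0 := by
      by_contra h4
      push Not at h4
      exact hφ (LinearMap.ext h4)
    have h4 := congrArg (fun f : Module.End K (E i) => f v) h3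
    simp only [Module.End.mul_apply, LinearMap.smulRight_apply, map_smul,
      LinearMap.zero_apply] at h4
    rcases smul_eq_zero.1 h4 with h5 | h5
    · exact absurd h5 hv
    · exact (smul_eq_zero.1 h5).resolve_right hu

include halt hnd hωρ hst hor htw hirr hnil in
/-- All rank one operators of one component. -/
theorem exists_elem (i : I) (hi : 2 ≤ finrank K (E i)) (u : E i) (φ : Dual K (E i))
    (hφ : Ty (fun i => st i = i) (fun i => par ω i i) i u φ) :
    ∃ X ∈ hh r χ, X i = φ.smulRight u ∧ ∀ j, j ≠ i → j ≠ st i → X j = 0 := by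
  classical
  have hT := types_hh ω halt hnd hωρ st hst hor htw hirr hnil
  have h𝔥 := lieFam_hh r χ
  obtain ⟨X, hX, hXi, hXj⟩ := full_indep h𝔥 hT hi
    ((Finset.univ.erase i).erase (st i)) (by
      intro j hj
      rw [Finset.mem_erase, Finset.mem_erase] at hj
      by_cases hj2 : 2 ≤ finrank K (E j)
      · have hji : i ≠ st j := fun h => hj.1 (by rw [h, hst])
        refine independent h𝔥 hT hi hj2 ⟨?_, ?_⟩ ⟨?_, ?_⟩
        · intro T ψ h
          exact htw i j (Ne.symm hj.2.1) hi hj2 T ψ h
        · intro T ψ h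
          refine no_dual ω hnd hωρ st hst hor htw i j hji hi hj2 T ψ fun g u v => ?_
          rw [h g u, LinearMap.smul_apply, smul_eq_mul]
          congr 1
          change T u (r j g⁻¹ (r j g v)) = _
          rw [r_inv]
        · intro T ψ h
          exact htw j i hj.2.1 hj2 hi T ψ h
        · intro T ψ h
          refine no_dual ω hnd hωρ st hst hor htw j i (fun h => hj.1 h) hj2 hi T ψ fun g u v => ?_
          rw [h g u, LinearMap.smul_apply, smul_eq_mul]
          congr 1
          change T u (r i g⁻¹ (r i g v)) = _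
          rw [r_inv]
      · obtain ⟨N, hN, hN2, u, φ, hu, hφ, hφu, hNi⟩ := hT.nil i hi
        refine ⟨N, hN, ?_, u, φ, hu, hφ, hφu, hNi⟩
        -- a nilpotent operator in dimension at most one
        have h1 : finrank K (E j) ≤ 1 := by omega
        ext x
        rw [LinearMap.zero_apply]
        by_contra hx
        obtain ⟨c, hc⟩ := (finrank_le_one_iff.1 h1).choose_spec x
        obtain ⟨c', hc'⟩ := (finrank_le_one_iff.1 h1).choose_spec (N j x)
        set v := (finrank_le_one_iff.1 h1).choose with hv
        have h2 : N j (N j x) = 0 := by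
          rw [← Module.End.mul_apply, hN2]
          rfl
        have hc'0 : c' ≠ 0 := by
          rintro rfl
          rw [zero_smul] at hc'
          exact hx hc'.symm
        have h3 : N j x = (c * c'⁻¹) • N j (N j x) := by
          conv_lhs => rw [← hc]
          rw [← hc', map_smul, map_smul, smul_smul, mul_assoc, inv_mul_cancel₀ hc'0, mul_one]
        rw [h2, smul_zero] at h3
        exact hx h3) u φ hφ
  refine ⟨X, hX, hXi, fun j h1 h2 => hXj j ?_⟩
  rw [Finset.mem_erase, Finset.mem_erase]
  exact ⟨h2, h1, Finset.mem_univ _⟩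

end

end Pool.Agent.W522.U
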