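import Mathlib
import Pool.Agent.W522.U.B3

/-!
# Generalised eigenvectors, graded bases and the weights of the Tate forms
-/

set_option linter.unusedSectionVars false

namespace Pool.Agent.W522.U

open Module Pool.Agent.H204R3.SP Pool.Agent.H204R3.GP

noncomputable section

/-- The multiplier of a form on generalised eigenvectors. -/
theorem gen_eig {K X κ : Type*} [Field K] [AddCommGroup X] [Module K X] [Fintype κ] [DecidableEq κ]
    (φ : MultilinearMap K (fun _ : κ => X) K) (T : Module.End K X) (c : K)
    (hφ : ∀ v, φ (fun k => T (v k)) = c * φ v) (α : κ → K) (v : κ → X)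
    (hv : ∀ k, v k ∈ Module.End.maxGenEigenspace T (α k)) (h0 : φ v ≠ 0) : c = ∏ k, α k := by
  choose D hD using fun k => Module.End.mem_maxGenEigenspace T (α k) (v k) |>.1 (hv k)
  let N : κ → Module.End K X := fun k => T - α k • (1 : Module.End K X)
  let S : Set (κ → ℕ) := {p | φ (fun k => (N k ^ p k) (v k)) ≠ 0}
  have hS : S.Finite := by
    refine (Set.finite_Iic D).subset fun p hp k => ?_
    by_contra h
    push Not at h
    apply hp
    apply φ.map_coord_zero k
    obtain ⟨q, hq⟩ := Nat.exists_eq_add_of_lt h
    have h1 : p k = (q + 1) + D k := by omega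
    rw [h1, pow_add, Module.End.mul_apply]
    have h2 : (N k ^ D k) (v k) = 0 := hD k
    rw [h2, map_zero]
  have hne : S.Nonempty := ⟨fun _ => 0, by
    change φ (fun k => (N k ^ 0) (v k)) ≠ 0
    simpa using h0⟩
  obtain ⟨p, hp, hmax⟩ := hS.exists_maximal hne
  let w : κ → X := fun k => (N k ^ p k) (v k)
  have hw : φ w ≠ 0 := hp
  have h1 : ∀ s : Finset κ, s ≠ Finset.univ → φ (s.piecewise w (fun k => N k (w k))) = 0 := by
    intro s hs
    by_contra hcon
    obtain ⟨k, hk⟩ : ∃ k, k ∉ s := by
      by_contra h
      push Not at h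
      exact hs (Finset.eq_univ_iff_forall.2 h)
    have h2 : (fun k => if k ∈ s then p k else p k + 1) ∈ S := by
      change φ (fun k => (N k ^ (if k ∈ s then p k else p k + 1)) (v k)) ≠ 0
      convert hcon using 2
      funext l
      by_cases hl : l ∈ s
      · rw [if_pos hl, Finset.piecewise_eq_of_mem _ _ _ hl]
      · rw [if_neg hl, Finset.piecewise_eq_of_notMem _ _ _ hl, pow_succ', Module.End.mul_apply]
    have h3 := hmax h2 (fun l => by
      dsimp only
      split_ifs <;> omega) k
    dsimp only at h3
    rw [if_neg hk] at h3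
    omega
  have h2 : φ (fun k => T (w k)) = (∏ k, α k) * φ w := by
    have h3 : (fun k => T (w k)) = (fun k => α k • w k) + fun k => N k (w k) := by
      funext k
      simp only [N, Pi.add_apply, LinearMap.sub_apply, LinearMap.smul_apply,
        Module.End.one_apply]
      abel
    rw [h3, MultilinearMap.map_add_univ, Finset.sum_eq_single Finset.univ]
    · rw [Finset.piecewise_univ, MultilinearMap.map_smul_univ, smul_eq_mul]
    · intro s _ hs
      have h4 : s.piecewise (fun k => α k • w k) (fun k => N k (w k)) =
          s.piecewise (fun k => α k • (s.piecewise w (fun k => N k (w k))) k)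
            (s.piecewise w (fun k => N k (w k))) := by
        funext k
        by_cases hk : k ∈ s
        · rw [Finset.piecewise_eq_of_mem _ _ _ hk, Finset.piecewise_eq_of_mem _ _ _ hk,
            Finset.piecewise_eq_of_mem _ _ _ hk]
        · rw [Finset.piecewise_eq_of_notMem _ _ _ hk, Finset.piecewise_eq_of_notMem _ _ _ hk,
            Finset.piecewise_eq_of_notMem _ _ _ hk]
      rw [h4, MultilinearMap.map_piecewise_smul, h1 s hs, smul_zero]
    · intro h
      exact absurd (Finset.mem_univ _) h
  rw [hφ] at h2
  exact mul_right_cancel₀ hw h2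

theorem det_gen {K X κ : Type*} [Field K] [AddCommGroup X] [Module K X] [Fintype κ]
    [DecidableEq κ] (e : Basis κ K X) (T : Module.End K X) (α : κ → K)
    (h : ∀ k, e k ∈ Module.End.maxGenEigenspace T (α k)) : LinearMap.det T = ∏ k, α k := by
  refine gen_eig e.det.toMultilinearMap T _ (fun v => ?_) α e h ?_
  · exact Basis.det_comp e T v
  · change e.det e ≠ 0
    rw [Basis.det_self]
    exact one_ne_zero

theorem gen_pow {K X : Type*} [Field K] [AddCommGroup X] [Module K X] (T : Module.End K X)
    (α : K) (M : ℕ) {x : X} (hx : x ∈ Module.End.maxGenEigenspace T α) :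
    x ∈ Module.End.maxGenEigenspace (T ^ M) (α ^ M) := by
  rw [Module.End.mem_maxGenEigenspace] at hx ⊢
  obtain ⟨k, hk⟩ := hx
  refine ⟨k, ?_⟩
  obtain ⟨q, hq⟩ : (Polynomial.X - Polynomial.C α) ∣
      (Polynomial.X ^ M - Polynomial.C α ^ M : Polynomial K) := sub_dvd_pow_sub_pow _ _ _
  have h0 : T - α • (1 : Module.End K X) = Polynomial.aeval T (Polynomial.X - Polynomial.C α) := by
    simp only [map_sub, Polynomial.aeval_X, Polynomial.aeval_C]
    rw [Algebra.algebraMap_eq_smul_one]
  have h1 : T ^ M - α ^ M • (1 : Module.End K X) = Polynomial.aeval T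
      (q * (Polynomial.X - Polynomial.C α)) := by
    rw [mul_comm, ← hq]
    simp only [map_sub, map_pow, Polynomial.aeval_X, Polynomial.aeval_C]
    rw [Algebra.algebraMap_eq_smul_one, smul_pow, one_pow]
  rw [h0, ← map_pow] at hk
  rw [h1, ← map_pow, mul_pow, map_mul, Module.End.mul_apply, hk, map_zero]

end

end Pool.Agent.W522.U
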