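import Mathlib
import Pool.Agent.W522.U.B4

/-!
# Balanced weights and the theorem for a multiplicity free sum
-/

set_option linter.unusedSectionVars false

namespace Pool.Agent.W522.U

open Module Pool.Agent.H204R3.SP Pool.Agent.H204R3.GP

noncomputable section

/-- The number of occurrences. -/
def cnt {κ R : Type*} [Fintype κ] [DecidableEq R] (J : κ → R) (y : R) : ℕ :=
  ∑ k, if J k = y then 1 else 0

theorem cnt_card {κ R : Type*} [Fintype κ] [DecidableEq R] (J : κ → R) (y : R) :
    cnt J y = (Finset.univ.filter (fun k => J k = y)).card := by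
  rw [Finset.card_filter]
  rfl

theorem prod_cnt {κ R K : Type*} [Fintype κ] [Fintype R] [DecidableEq R] [Field K] (J : κ → R)
    (f : R → K) : ∏ k, f (J k) = ∏ y, f y ^ cnt J y := by
  unfold cnt
  simp only [← Finset.prod_pow_eq_pow_sum]
  rw [Finset.prod_comm]
  refine Finset.prod_congr rfl fun k _ => ?_
  rw [Finset.prod_eq_single (J k)]
  · rw [if_pos rfl, pow_one]
  · intro y _ hy
    rw [if_neg (Ne.symm hy), pow_zero]
  · intro h
    exact absurd (Finset.mem_univ _) h

variable {K : Type*} [Field K] [CharZero K]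
  {I : Type*} [Fintype I] [DecidableEq I] {E : I → Type*} [∀ i, AddCommGroup (E i)]
  [∀ i, Module K (E i)] [∀ i, FiniteDimensional K (E i)] {G : Type*} [Group G]
  {r : ∀ i, Representation K G (E i)} {χ : G →* K}
  (ω : (∀ i, E i) →ₗ[K] (∀ i, E i) →ₗ[K] K) (halt : ∀ u, ω u u = 0)
  (hnd : ∀ u, (∀ w, ω u w = 0) → u = 0)
  (hωρ : ∀ g u v, ω (piRep r g u) (piRep r g v) = χ g * ω u v)
  (st : I → I) (hst : ∀ i, st (st i) = i)
  (hor : ∀ i j, j ≠ st i → ∀ (u : E i) (v : E j), ω (Pi.single i u) (Pi.single j v) = 0)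
  (htw : ∀ i j, i ≠ j → 2 ≤ finrank K (E i) → 2 ≤ finrank K (E j) →
    ∀ (T : E i →ₗ[K] E j) (ψ : G → K), (∀ g u, T (r i g u) = ψ g • r j g (T u)) → T = 0)
  (hirr : ∀ i, 2 ≤ finrank K (E i) → Irr (r i))
  (hnil : ∀ i, 2 ≤ finrank K (E i) → ∃ N ∈ lieT (piRep r) χ, N * N = 0 ∧
    ∃ (u : E i) (φ : Dual K (E i)), u ≠ 0 ∧ φ ≠ 0 ∧ ∀ x, N (Pi.single i x) i = φ x • u)

section basis

variable {n : ℕ} (e : Basis (Fin n ⊕ Fin n) K (∀ i, E i)) (lab : Fin n ⊕ Fin n → I)
  (hlab : ∀ x, e x = Pi.single (lab x) (e x (lab x)))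
  (hlab' : ∀ x, lab x.swap = st (lab x))
  (he0 : ∀ x y, y ≠ x.swap → ω (e x) (e y) = 0) (he1 : ∀ x, ω (e x) (e x.swap) ≠ 0)

include hlab in
theorem exists_fb (i : I) : ∃ f : Basis {y // lab y = i} K (E i), ∀ y, f y = e y.1 i := by
  have h1 : LinearIndependent K (fun y : {y // lab y = i} => e y.1 i) := by
    rw [Fintype.linearIndependent_iff]
    intro g hg
    have h2 := e.linearIndependent.comp (Subtype.val : {y // lab y = i} → _) Subtype.val_injective
    rw [Fintype.linearIndependent_iff] at h2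
    refine h2 g ?_
    have h3 : ∀ y : {y // lab y = i}, g y • (e ∘ Subtype.val) y =
        LinearMap.single K E i (g y • e y.1 i) := by
      intro y
      rw [map_smul]
      congr 1
      exact e_single e lab hlab y.2
    rw [Finset.sum_congr rfl (fun y _ => h3 y), ← map_sum, hg, map_zero]
  have h2 : ⊤ ≤ Submodule.span K (Set.range (fun y : {y // lab y = i} => e y.1 i)) := by
    intro u _
    have h3 : u = (∑ y, e.repr (Pi.single i u) y • e y) i := by
      rw [e.sum_repr, Pi.single_eq_same]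
    rw [h3, Finset.sum_apply]
    refine Submodule.sum_mem _ fun y _ => ?_
    rw [Pi.smul_apply]
    refine Submodule.smul_mem _ _ ?_
    by_cases hy : lab y = i
    · exact Submodule.subset_span ⟨⟨y, hy⟩, rfl⟩
    · rw [e_zero e lab hlab hy]
      exact Submodule.zero_mem _
  exact ⟨Basis.mk h1 h2, fun y => by rw [Basis.mk_apply]⟩

include hlab in
theorem finrank_lab (i : I) :
    finrank K (E i) = (Finset.univ.filter (fun y => lab y = i)).card := by
  obtain ⟨f, -⟩ := exists_fb e lab hlab i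
  rw [finrank_eq_card_basis f, Fintype.card_subtype]

include hlab in
theorem finrank_pos_lab (y : Fin n ⊕ Fin n) : 0 < finrank K (E (lab y)) := by
  rw [finrank_lab e lab hlab]
  exact Finset.card_pos.2 ⟨y, by simp⟩

include halt hnd hωρ hst hor htw hirr hnil hlab hlab' he0 he1 in
theorem weight_one {m : ℕ} (φ : MultilinearMap K (fun _ : Fin m × Fin 2 => ∀ i, E i) K)
    (hφ : IsTate (piRep r) χ m φ) (J : Fin m × Fin 2 → Fin n ⊕ Fin n)
    (hJ : φ (fun k => e (J k)) ≠ 0) (y : Fin n ⊕ Fin n) :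
    (finrank K (E (lab y)) : ℤ) * ((cnt J y : ℤ) - cnt J y.swap) =
      (cnt (fun k => lab (J k)) (lab y) : ℤ) - cnt (fun k => lab (J k)) (st (lab y)) := by
  -- equality of the differences
  have hsum : ∀ x : Fin n ⊕ Fin n, ∑ k, (dd Sum.swap x (J k) : K) =
      (((cnt J x : ℤ) - cnt J x.swap : ℤ) : K) := by
    intro x
    simp only [dd_sub, Finset.sum_sub_distrib, cnt]
    push_cast
    rfl
  have hd : ∀ x, lab x = lab y → (cnt J x : ℤ) - cnt J x.swap = (cnt J y : ℤ) - cnt J y.swap := by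
    intro x hx
    by_cases hxy : x = y
    · rw [hxy]
    by_cases hi : st (lab y) = lab y
    · have h0 : ∀ x, lab x = lab y → (cnt J x : ℤ) - cnt J x.swap = 0 := by
        intro x hx
        obtain ⟨D, hD, hDe⟩ := diag_sp ω halt hnd hωρ st hst hor htw hirr hnil e lab hlab hlab'
          he0 he1 hi hx
        have h1 := count_of_diag e (piRep r) χ hD _ hDe φ hφ J hJ
        rw [hsum] at h1
        exact_mod_cast h1
      rw [h0 x hx, h0 y rfl]
    · obtain ⟨D, hD, hDe⟩ := diag_sl ω halt hnd hωρ st hst hor htw hirr hnil e lab hlab hlab'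
        he0 he1 hi hx rfl hxy
      have h1 := count_of_diag e (piRep r) χ hD _ hDe φ hφ J hJ
      rw [Finset.sum_sub_distrib, hsum, hsum, sub_eq_zero] at h1
      exact_mod_cast h1
  have h1 : ∑ x ∈ Finset.univ.filter (fun x => lab x = lab y),
      ((cnt J x : ℤ) - cnt J x.swap) =
      (finrank K (E (lab y)) : ℤ) * ((cnt J y : ℤ) - cnt J y.swap) := by
    rw [Finset.sum_congr rfl (fun x hx => hd x (Finset.mem_filter.1 hx).2), Finset.sum_const,
      ← finrank_lab e lab hlab, nsmul_eq_mul]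
  rw [← h1]
  have h2 : ∀ (c : I), ∑ x ∈ Finset.univ.filter (fun x => lab x = c), (cnt J x : ℤ) =
      cnt (fun k => lab (J k)) c := by
    intro c
    unfold cnt
    push_cast
    rw [Finset.sum_comm]
    refine Finset.sum_congr rfl fun k _ => ?_
    rw [Finset.sum_filter, Finset.sum_eq_single (J k)]
    · simp
    · intro b _ hb
      rw [if_neg (Ne.symm hb), ite_self]
    · intro h
      exact absurd (Finset.mem_univ _) h
  rw [Finset.sum_sub_distrib, h2, ← h2 (st (lab y))]
  congr 1
  refine Finset.sum_bij' (fun x _ => x.swap) (fun x _ => x.swap) ?_ ?_ ?_ ?_ ?_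
  · intro x hx
    rw [Finset.mem_filter] at hx ⊢
    exact ⟨Finset.mem_univ _, by rw [hlab', hx.2]⟩
  · intro x hx
    rw [Finset.mem_filter] at hx ⊢
    exact ⟨Finset.mem_univ _, by rw [hlab', hx.2, hst]⟩
  · intro x _
    exact Sum.swap_swap x
  · intro x _
    exact Sum.swap_swap x
  · intro x _
    rfl

end basis

end

end Pool.Agent.W522.U
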