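import Mathlib
import Pool.Agent.W522.U.B5

/-!
# The theorem for a multiplicity free sum
-/

set_option linter.unusedSectionVars false

namespace Pool.Agent.W522.U

open Module Pool.Agent.H204R3.SP Pool.Agent.H204R3.GP

noncomputable section

variable {K : Type*} [Field K] [CharZero K]
  {I : Type*} [Fintype I] [DecidableEq I] {E : I → Type*} [∀ i, AddCommGroup (E i)]
  [∀ i, Module K (E i)] [∀ i, FiniteDimensional K (E i)] {G : Type*} [Group G]
  {r : ∀ i, Representation K G (E i)} {χ : G →* K}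
  (ω : (∀ i, E i) →ₗ[K] (∀ i, E i) →ₗ[K] K) (halt : ∀ u, ω u u = 0)
  (hnd : ∀ u, (∀ w, ω u w = 0) → u = 0)
  (hωρ : ∀ g u v, ω (piRep r g u) (piRep r g v) = χ g * ω u v)
  (st : I → I) (hst : ∀ i, st (st i) = i)
  (hor : ∀ i j, j ≠ st i → ∀ (u : E i) (v : E j), ω (Pi.single i u) (Pi.single j v) = 0)
  (htw : ∀ i j, i ≠ j → 2 ≤ finrank K (E i) → 2 ≤ finrank K (E j) →
    ∀ (T : E i →ₗ[K] E j) (ψ : G → K), (∀ g u, T (r i g u) = ψ g • r j g (T u)) → T = 0)
  (hirr : ∀ i, 2 ≤ finrank K (E i) → Irr (r i))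
  (hnil : ∀ i, 2 ≤ finrank K (E i) → ∃ N ∈ lieT (piRep r) χ, N * N = 0 ∧
    ∃ (u : E i) (φ : Dual K (E i)), u ≠ 0 ∧ φ ≠ 0 ∧ ∀ x, N (Pi.single i x) i = φ x • u)

theorem gen_single (γ : G) (i : I) (α : K) {u : E i}
    (hu : u ∈ Module.End.maxGenEigenspace (r i γ) α) :
    (Pi.single i u : ∀ i, E i) ∈ Module.End.maxGenEigenspace (piRep r γ) α := by
  rw [Module.End.mem_maxGenEigenspace] at hu ⊢
  obtain ⟨k, hk⟩ := hu
  refine ⟨k, ?_⟩
  have h1 : ∀ (k : ℕ) (u : E i), ((piRep r γ - α • (1 : Module.End K (∀ i, E i))) ^ k)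
      (Pi.single i u) = Pi.single i (((r i γ - α • (1 : Module.End K (E i))) ^ k) u) := by
    intro k
    induction k with
    | zero => intro u; rfl
    | succ k ih =>
      intro u
      rw [pow_succ, Module.End.mul_apply, pow_succ, Module.End.mul_apply, ← ih]
      congr 1
      rw [LinearMap.sub_apply, LinearMap.sub_apply, LinearMap.smul_apply, LinearMap.smul_apply,
        Module.End.one_apply, Module.End.one_apply, Pi.single_sub, Pi.single_smul, piRep_single]
  rw [h1, hk, Pi.single_zero]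

include halt hnd hωρ hst hor in
/-- A graded symplectic basis of generalised eigenvectors. -/
theorem exists_graded [IsAlgClosed K] (γ : G) : ∃ (n : ℕ)
    (e : Basis (Fin n ⊕ Fin n) K (∀ i, E i)) (lab : Fin n ⊕ Fin n → I) (α : Fin n ⊕ Fin n → K),
    (∀ x, e x = Pi.single (lab x) (e x (lab x))) ∧ (∀ x, lab x.swap = st (lab x)) ∧
    (∀ x y, y ≠ x.swap → ω (e x) (e y) = 0) ∧ (∀ x, ω (e x) (e x.swap) ≠ 0) ∧
    (∀ x, e x (lab x) ∈ Module.End.maxGenEigenspace (r (lab x) γ) (α x)) ∧
    (∀ x, α x * α x.swap = χ γ) := by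
  have hχ := chi_ne (χ := χ) γ
  let F : I × K → Submodule K (∀ i, E i) := fun c =>
    (Module.End.maxGenEigenspace (r c.1 γ) c.2).map (LinearMap.single K E c.1)
  have key : ∀ (x y : ∀ i, E i) (α β : K), x ∈ Module.End.maxGenEigenspace (piRep r γ) α →
      y ∈ Module.End.maxGenEigenspace (piRep r γ) β → ω x y ≠ 0 → α * β = χ γ := by
    intro x y α β hx hy h0
    have h1 := gen_eig (bil2 ω) (piRep r γ) (χ γ) (fun v => by
      rw [bil2_apply, bil2_apply]
      exact hωρ γ _ _) ![α, β] ![x, y] (by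
      intro k
      fin_cases k
      · exact hx
      · exact hy) (by
      rw [bil2_apply]
      exact h0)
    rw [h1, Fin.prod_univ_two]
    rfl
  have hFF : ∀ c d, d ≠ (st c.1, χ γ / c.2) → ∀ u ∈ F c, ∀ v ∈ F d, ω u v = 0 := by
    rintro c d hd _ ⟨u, hu, rfl⟩ _ ⟨v, hv, rfl⟩
    by_cases h1 : d.1 = st c.1
    · by_contra h2
      have h3 := key _ _ _ _ (gen_single γ c.1 c.2 hu) (gen_single γ d.1 d.2 hv) h2
      apply hd
      refine Prod.ext h1 ?_
      change d.2 = χ γ / c.2
      have h4 : c.2 ≠ 0 := by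
        intro h5
        rw [h5, zero_mul] at h3
        exact hχ h3.symm
      rw [← h3]
      field_simp
    · exact hor _ _ h1 u v
  have hskew := om_skew ω halt
  obtain ⟨n, e, lab', h1, h2, h3, h4⟩ := exists_sb ω hskew halt F
    (fun c => (st c.1, χ γ / c.2)) (fun c => by
      refine Prod.ext (hst _) ?_
      change χ γ / (χ γ / c.2) = c.2
      by_cases h : c.2 = 0
      · rw [h, div_zero, div_zero]
      · field_simp) hFF hnd (by
      rw [eq_top_iff]
      intro y _
      rw [← Finset.univ_sum_single y]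
      refine Submodule.sum_mem _ fun i _ => ?_
      have h5 : y i ∈ ⨆ α, Module.End.maxGenEigenspace (r i γ) α := by
        rw [Module.End.iSup_maxGenEigenspace_eq_top]
        trivial
      have h6 := Submodule.mem_map_of_mem (f := LinearMap.single K E i) h5
      rw [Submodule.map_iSup] at h6
      have h7 : ⨆ α, (Module.End.maxGenEigenspace (r i γ) α).map (LinearMap.single K E i) ≤
          ⨆ c, F c := iSup_le fun α => le_iSup F (i, α)
      exact h7 h6)
  have h5 : ∀ x, e x = Pi.single (lab' x).1 (e x (lab' x).1) ∧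
      e x (lab' x).1 ∈ Module.End.maxGenEigenspace (r (lab' x).1 γ) (lab' x).2 := by
    intro x
    obtain ⟨u, hu, hux⟩ := h1 x
    have h6 : e x (lab' x).1 = u := by
      rw [← hux]
      exact Pi.single_eq_same _ _
    exact ⟨by rw [h6]; exact hux.symm, by rw [h6]; exact hu⟩
  refine ⟨n, e, fun x => (lab' x).1, fun x => (lab' x).2, fun x => (h5 x).1,
    fun x => congrArg Prod.fst (h2 x),
    h3, h4, fun x => (h5 x).2, fun x => ?_⟩
  refine key (e x) (e x.swap) _ _ ?_ ?_ (h4 x)
  · rw [(h5 x).1]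
    exact gen_single γ _ _ (h5 x).2
  · rw [(h5 x.swap).1]
    exact gen_single γ _ _ (h5 x.swap).2

/-- Changing the basis within a type. -/
theorem exists_type {n : ℕ} (e : Basis (Fin n ⊕ Fin n) K (∀ i, E i)) (lab : Fin n ⊕ Fin n → I)
    (hlab : ∀ x, e x = Pi.single (lab x) (e x (lab x)))
    {κ : Type*} [Fintype κ] [DecidableEq κ] (φ : MultilinearMap K (fun _ : κ => ∀ i, E i) K)
    (t : κ → I) (v : ∀ k, E (t k)) (hv : φ (fun k => Pi.single (t k) (v k)) ≠ 0) :
    ∃ J : κ → Fin n ⊕ Fin n, (∀ k, lab (J k) = t k) ∧ φ (fun k => e (J k)) ≠ 0 := by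
  by_contra hcon
  push Not at hcon
  apply hv
  let φt : MultilinearMap K (fun _ : κ => ∀ i, E i) K :=
    φ.compLinearMap (fun k => (LinearMap.single K E (t k)).comp (LinearMap.proj (t k)))
  have h1 : φt = 0 := by
    refine Basis.ext_multilinear (fun _ => e) fun J => ?_
    rw [zero_apply]
    change φ (fun k => Pi.single (t k) (e (J k) (t k))) = 0
    by_cases hJ : ∀ k, lab (J k) = t k
    · have h2 : (fun k => (Pi.single (t k) (e (J k) (t k)) : ∀ i, E i)) = fun k => e (J k) := by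
        funext k
        exact (e_single e lab hlab (hJ k)).symm
      rw [h2]
      exact hcon J hJ
    · push Not at hJ
      obtain ⟨k, hk⟩ := hJ
      refine φ.map_coord_zero k ?_
      rw [e_zero e lab hlab hk, Pi.single_zero]
  have h2 : φt (fun k => Pi.single (t k) (v k)) = φ (fun k => Pi.single (t k) (v k)) := by
    change φ (fun k => Pi.single (t k) ((Pi.single (t k) (v k) : ∀ i, E i) (t k))) = _
    congr 1
    funext k
    rw [Pi.single_eq_same]
  rw [← h2, h1]
  rfl

theorem piRep_pow (γ : G) (M : ℕ) : piRep r (γ ^ M) = piRep r γ ^ M := map_pow _ _ _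

include halt hnd hωρ hst hor htw hirr hnil in
theorem det_rel [IsAlgClosed K] (γ : G) {m : ℕ}
    (φ : MultilinearMap K (fun _ : Fin m × Fin 2 => ∀ i, E i) K)
    (Δ : Subgroup G) (hΔ : Δ.FiniteIndex)
    (hφ : ∀ s ∈ Δ, ∀ v, φ (fun k => piRep r s (v k)) = χ s ^ m * φ v)
    (M : ℕ) (hM : γ ^ M ∈ Δ) (t : Fin m × Fin 2 → I) (v : ∀ k, E (t k))
    (hv : φ (fun k => Pi.single (t k) (v k)) ≠ 0) (a : I → ℤ)
    (ha : ∀ i, (finrank K (E i) : ℤ) * a i = (cnt t i : ℤ) - cnt t (st i)) :
    (∏ i, LinearMap.det (r i γ) ^ a i) ^ M = 1 := by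
  obtain ⟨n, e, lab, α, hlab, hlab', he0, he1, heα, hαα⟩ :=
    exists_graded ω halt hnd hωρ st hst hor γ
  obtain ⟨J, hJt, hJ⟩ := exists_type e lab hlab φ t v hv
  have hχ := chi_ne (χ := χ) γ
  have hα0 : ∀ x, α x ≠ 0 := by
    intro x h
    apply hχ
    rw [← hαα x, h, zero_mul]
  have hw : ∀ y, a (lab y) = (cnt J y : ℤ) - cnt J y.swap := by
    intro y
    have h1 := weight_one ω halt hnd hωρ st hst hor htw hirr hnil e lab hlab hlab' he0 he1 φ
      ⟨Δ, hΔ, hφ⟩ J hJ y
    have h2 : (fun k => lab (J k)) = t := funext hJt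
    rw [h2, ← ha] at h1
    have h3 : (finrank K (E (lab y)) : ℤ) ≠ 0 := by
      have := finrank_pos_lab e lab hlab y
      omega
    exact (mul_left_cancel₀ h3 h1).symm
  -- the product of the eigenvalues
  have hP1 : χ γ ^ (M * m) = ∏ k, α (J k) ^ M := by
    refine gen_eig φ (piRep r γ ^ M) _ (fun v => ?_) _ (fun k => e (J k)) (fun k => ?_) hJ
    · rw [← piRep_pow, hφ _ hM, map_pow, ← pow_mul]
    · refine gen_pow _ _ _ ?_
      rw [hlab (J k)]
      exact gen_single γ _ _ (heα _)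
  have hP2 : ∏ k, α (J k).swap ^ M = ∏ k, α (J k) ^ M := by
    have h1 : (∏ k, α (J k) ^ M) * ∏ k, α (J k).swap ^ M = χ γ ^ (M * m) * χ γ ^ (M * m) := by
      rw [← Finset.prod_mul_distrib]
      have h2 : ∀ k, α (J k) ^ M * α (J k).swap ^ M = χ γ ^ M := by
        intro k
        rw [← mul_pow, hαα]
      rw [Finset.prod_congr rfl (fun k _ => h2 k), Finset.prod_const, Finset.card_univ,
        Fintype.card_prod, Fintype.card_fin, Fintype.card_fin, ← pow_mul, ← pow_add]
      congr 1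
      ring
    rw [← hP1] at h1 ⊢
    exact mul_left_cancel₀ (pow_ne_zero _ hχ) h1
  have hP3 : ∏ y, (α y ^ M) ^ a (lab y) = 1 := by
    have h1 : ∀ y, (α y ^ M) ^ a (lab y) = (α y ^ M) ^ cnt J y / (α y ^ M) ^ cnt J y.swap := by
      intro y
      rw [hw, zpow_sub₀ (pow_ne_zero _ (hα0 y)), zpow_natCast, zpow_natCast]
    rw [Finset.prod_congr rfl (fun y _ => h1 y), Finset.prod_div_distrib, div_eq_one_iff_eq]
    · rw [← prod_cnt J (fun y => α y ^ M), ← hP2, prod_cnt J (fun y => α y.swap ^ M)]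
      refine Finset.prod_bij' (fun x _ => x.swap) (fun x _ => x.swap) ?_ ?_ ?_ ?_ ?_
      · intro x _; exact Finset.mem_univ _
      · intro x _; exact Finset.mem_univ _
      · intro x _; exact Sum.swap_swap x
      · intro x _; exact Sum.swap_swap x
      · intro x _
        rw [Sum.swap_swap]
    · exact Finset.prod_ne_zero_iff.2 fun y _ => pow_ne_zero _ (pow_ne_zero _ (hα0 y))
  have hdet : ∀ i, LinearMap.det (r i γ) = ∏ y ∈ Finset.univ.filter (fun y => lab y = i), α y := by
    intro i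
    obtain ⟨f, hf⟩ := exists_fb e lab hlab i
    rw [det_gen f (r i γ) (fun y => α y.1) (fun y => by
      rw [hf]
      obtain ⟨y, rfl⟩ := y
      exact heα y)]
    exact (Finset.prod_subtype _ (fun y => by simp) α).symm
  rw [← hP3, ← Finset.prod_fiberwise (g := lab)]
  rw [← Finset.prod_pow]
  refine Finset.prod_congr rfl fun i _ => ?_
  rw [hdet, ← zpow_natCast, ← zpow_mul, mul_comm, zpow_mul, zpow_natCast, ← Finset.prod_pow,
    ← Finset.prod_zpow]
  refine Finset.prod_congr rfl fun y hy => ?_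
  rw [(Finset.mem_filter.1 hy).2]

variable (hdet : ∀ a : I → ℤ, (∀ i, a (st i) = -a i) →
  (∀ g : G, ∏ i, LinearMap.det (r i g) ^ a i = 1) → a = 0)

include halt hnd hωρ hst hor htw hirr hnil hdet in
theorem balanced [IsAlgClosed K] {n : ℕ} (e : Basis (Fin n ⊕ Fin n) K (∀ i, E i))
    (lab : Fin n ⊕ Fin n → I)
    (hlab : ∀ x, e x = Pi.single (lab x) (e x (lab x)))
    (hlab' : ∀ x, lab x.swap = st (lab x))
    (he0 : ∀ x y, y ≠ x.swap → ω (e x) (e y) = 0) (he1 : ∀ x, ω (e x) (e x.swap) ≠ 0)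
    {m : ℕ} (φ : MultilinearMap K (fun _ : Fin m × Fin 2 => ∀ i, E i) K)
    (hφ : IsTate (piRep r) χ m φ) (J : Fin m × Fin 2 → Fin n ⊕ Fin n)
    (hJ : φ (fun k => e (J k)) ≠ 0) (y : Fin n ⊕ Fin n) : cnt J y = cnt J y.swap := by
  classical
  obtain ⟨Δ, hΔ, hφΔ⟩ := id hφ
  let t : Fin m × Fin 2 → I := fun k => lab (J k)
  let a : I → ℤ := fun i => if h : ∃ y, lab y = i then (cnt J h.choose : ℤ) - cnt J h.choose.swap
    else 0
  have hW := weight_one ω halt hnd hωρ st hst hor htw hirr hnil e lab hlab hlab' he0 he1 φ hφ J hJ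
  have ha : ∀ i, (finrank K (E i) : ℤ) * a i = (cnt t i : ℤ) - cnt t (st i) := by
    intro i
    by_cases h : ∃ y, lab y = i
    · have h1 : a i = (cnt J h.choose : ℤ) - cnt J h.choose.swap := dif_pos h
      have h2 := hW h.choose
      rw [h.choose_spec] at h2
      rw [h1, h2]
    · have h1 : a i = 0 := dif_neg h
      have h2 : cnt t i = 0 := by
        unfold cnt
        refine Finset.sum_eq_zero fun k _ => if_neg fun h3 => h ⟨J k, h3⟩
      have h3 : cnt t (st i) = 0 := by
        unfold cnt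
        refine Finset.sum_eq_zero fun k _ => if_neg fun h3 => h ⟨(J k).swap, ?_⟩
        rw [hlab', ← hst i]
        exact congrArg st h3
      rw [h1, h2, h3, mul_zero, sub_self]
  have hast : ∀ i, a (st i) = -a i := by
    intro i
    have h1 := ha i
    have h2 := ha (st i)
    rw [hst, finrank_st ω hnd st hst hor] at h2
    by_cases h : ∃ y, lab y = i
    · obtain ⟨y, rfl⟩ := h
      have h3 : (finrank K (E (lab y)) : ℤ) ≠ 0 := by
        have := finrank_pos_lab e lab hlab y
        omega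
      apply mul_left_cancel₀ h3
      rw [h2, mul_neg, h1]
      ring
    · have h3 : a i = 0 := dif_neg h
      have h4 : a (st i) = 0 := by
        refine dif_neg fun h5 => h ?_
        obtain ⟨y, hy⟩ := h5
        exact ⟨y.swap, by rw [hlab', hy, hst]⟩
      rw [h3, h4, neg_zero]
  have hrel : ∀ γ : G, (∏ i, LinearMap.det (r i γ) ^ a i) ^ Δ.normalCore.index = 1 := by
    intro γ
    refine det_rel ω halt hnd hωρ st hst hor htw hirr hnil γ φ Δ hΔ hφΔ _ ?_ t
      (fun k => e (J k) (lab (J k))) ?_ a ha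
    · exact Δ.normalCore_le (Δ.normalCore.pow_index_mem γ)
    · have h1 : (fun k => (Pi.single (t k) (e (J k) (lab (J k))) : ∀ i, E i)) =
          fun k => e (J k) := by
        funext k
        exact (hlab (J k)).symm
      rw [h1]
      exact hJ
  have hM0 : (Δ.normalCore.index : ℤ) ≠ 0 := by
    have : Δ.normalCore.FiniteIndex := inferInstance
    exact_mod_cast this.index_ne_zero
  have h0 := hdet (fun i => (Δ.normalCore.index : ℤ) * a i) (fun i => by
    rw [hast]
    ring) (fun γ => by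
    rw [← hrel γ, ← Finset.prod_pow]
    refine Finset.prod_congr rfl fun i _ => ?_
    rw [← zpow_natCast, ← zpow_mul, mul_comm])
  have h1 : a (lab y) = 0 := by
    have h2 := congrFun h0 (lab y)
    exact (mul_eq_zero.1 h2).resolve_left hM0
  have h2 := hW y
  rw [← ha, h1, mul_zero] at h2
  have h3 : (finrank K (E (lab y)) : ℤ) ≠ 0 := by
    have := finrank_pos_lab e lab hlab y
    omega
  have h4 := (mul_eq_zero.1 h2).resolve_left h3
  omega

include halt hnd hωρ hst hor htw hirr hnil hdet in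
/-- Tate forms on a multiplicity free sum are generated in degree two. -/
theorem main_pi [IsAlgClosed K] (hss : HasProj (piRep r)) {m : ℕ}
    (φ : MultilinearMap K (fun _ : Fin m × Fin 2 => ∀ i, E i) K)
    (hφ : IsTate (piRep r) χ m φ) : φ ∈ Submodule.span K (PT (piRep r) χ m) := by
  classical
  obtain ⟨n, e, lab, α, hlab, hlab', he0, he1, -, -⟩ :=
    exists_graded (r := r) (χ := χ) ω halt hnd hωρ st hst hor 1
  have hskew := om_skew ω halt
  refine tateG_mem e (inv := Sum.swap) (jj := fun x => ω (e x) (e x.swap)) (fun x => Sum.swap_swap x)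
    (fun x => ?_) (fun x => ?_) he1 ω (fun x y => ?_) (piRep r) χ hωρ hss ?_ φ hφ
  · intro h
    have h1 := he1 x
    rw [h, halt] at h1
    exact h1 rfl
  · rw [Sum.swap_swap, hskew]
  · unfold JJ
    split_ifs with h
    · rw [h]
    · exact he0 x y h
  · intro m φ hφ J hJ y
    rw [← cnt_card, ← cnt_card]
    exact balanced ω halt hnd hωρ st hst hor htw hirr hnil hdet e lab hlab hlab' he0 he1 φ hφ J
      hJ y

end

end Pool.Agent.W522.U
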