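import Mathlib
import Pool.Agent.W522.U.C1

/-!
# Representatives of the strongly irreducible subspaces
-/

set_option linter.unusedSectionVars false

namespace Pool.Agent.W522.U

open Module Pool.Agent.H204R3.SP Pool.Agent.H204R3.GP

variable {K : Type*} [Field K] [CharZero K] {X : Type*} [AddCommGroup X] [Module K X]
  [FiniteDimensional K X]
  {Γ : Type*} [Group Γ] {R : Representation K Γ X} {χ : Γ →* K}

theorem sup_SI (hss : HasProj R) : sSup {U | SI R U} = ⊤ := by
  by_contra hne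
  set S := sSup {U | SI R U} with hS
  have hSR : ∀ g ∈ (⊤ : Subgroup Γ), ∀ u ∈ S, R g u ∈ S := by
    intro g _
    have h1 : S ≤ S.comap (R g) := by
      refine sSup_le fun U hU => ?_
      rw [← Submodule.map_le_iff_le_comap]
      exact le_sSup (hU.mapR g)
    exact h1
  obtain ⟨P, hP1, hP2, hP3⟩ := hss ⊤ inferInstance S hSR
  have h1 : LinearMap.ker P ≠ ⊥ := by
    intro h
    apply hne
    rw [eq_top_iff]
    intro x _
    have h2 : x - P x ∈ LinearMap.ker P := by
      rw [LinearMap.mem_ker, map_sub, hP2 _ (hP1 x), sub_self]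
    rw [h, Submodule.mem_bot, sub_eq_zero] at h2
    rw [h2]
    exact hP1 x
  obtain ⟨U, hU, hU'⟩ := exists_SI (R := R) _ (LinearMap.ker P) rfl h1 ⟨⊤, inferInstance,
    fun g hg u hu => by
      change P (R g u) = 0
      rw [hP3 g hg, LinearMap.mem_ker.1 hu, map_zero]⟩
  obtain ⟨u, hu, hu0⟩ := Submodule.exists_mem_ne_zero_of_ne_bot hU'.1
  apply hu0
  have h3 : U ≤ S := le_sSup (show U ∈ {U | SI R U} from hU')
  have h2 : u ∈ S := h3 hu
  rw [← hP2 u h2]
  exact hU hu

/-- A nonzero linear map is nonzero on some strongly irreducible subspace. -/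
theorem exists_ne_on (hss : HasProj R) {M : Type*} [AddCommGroup M] [Module K M]
    (f : X →ₗ[K] M) (hf : f ≠ 0) : ∃ U, SI R U ∧ ∃ u ∈ U, f u ≠ 0 := by
  by_contra hcon
  push Not at hcon
  apply hf
  have h1 : sSup {U | SI R U} ≤ LinearMap.ker f := sSup_le fun U hU u hu => hcon U hU u hu
  rw [sup_SI hss] at h1
  exact LinearMap.ker_eq_top.1 (top_le_iff.1 h1)

/-- Every strongly irreducible subspace is isomorphic to one of finitely many. -/
theorem exists_reps (hss : HasProj R) : ∃ (s : ℕ) (W : Fin s → Submodule K X),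
    (∀ i, SI R (W i)) ∧ (∀ i j, Tw R (fun _ => 1) (W i) (W j) → i = j) ∧
    ∀ U, SI R U → ∃ i, Tw R (fun _ => 1) U (W i) := by
  classical
  have h1 : IsCompactElement (⊤ : Submodule K X) :=
    (Submodule.fg_iff_compact _).1 (Module.Finite.fg_top)
  rw [CompleteLattice.isCompactElement_iff_exists_le_sSup_of_le_sSup] at h1
  obtain ⟨t, ht, htop⟩ := h1 {U | SI R U} (by rw [sup_SI hss])
  let A := {U // U ∈ t}
  have hA : ∀ a : A, SI R a.1 := fun a => ht a.2
  let S : Setoid A :=
    { r := fun a b => Tw R (fun _ => 1) a.1 b.1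
      iseqv :=
        { refl := fun a => tw_refl (hA a).1
          symm := fun {a b} h => h.symm1 (hA a) (hA b)
          trans := fun {a b c} h h' => h.trans1 (hA b) h' } }
  let _ : Fintype (Quotient S) := Fintype.ofFinite _
  let eq := (Fintype.equivFin (Quotient S)).symm
  refine ⟨Fintype.card (Quotient S), fun i => ((eq i).out : A).1, fun i => hA _, ?_, ?_⟩
  · intro i j hij
    have h2 : (eq i).out ≈ (eq j).out := hij
    have h3 := Quotient.sound h2
    rw [Quotient.out_eq, Quotient.out_eq] at h3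
    exact eq.injective h3
  · intro U hU
    obtain ⟨Δ, hΔ, hΔU⟩ := hU.2.1
    obtain ⟨P, hP1, hP2, hP3⟩ := hss Δ hΔ U hΔU
    obtain ⟨a, ha⟩ : ∃ a : A, ∃ u ∈ a.1, P u ≠ 0 := by
      by_contra hcon
      push Not at hcon
      have h2 : t.sup id ≤ LinearMap.ker P := Finset.sup_le fun V hV u hu => hcon ⟨V, hV⟩ u hu
      obtain ⟨u, hu, hu0⟩ := Submodule.exists_mem_ne_zero_of_ne_bot hU.1
      apply hu0
      rw [← hP2 u hu]
      exact h2 (htop trivial)
    have h3 : Tw R (fun _ => 1) a.1 U := ⟨Δ, hΔ, P, fun u _ => hP1 u, ha, fun g hg u _ => by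
      rw [one_smul, hP3 g hg]⟩
    refine ⟨eq.symm (Quotient.mk S a), (h3.symm1 (hA a) hU).trans1 (hA a) ?_⟩
    have h4 : (eq (eq.symm (Quotient.mk S a))).out ≈ a := by
      rw [Equiv.apply_symm_apply]
      exact Quotient.mk_out a
    exact (show Tw R (fun _ => 1) _ _ from h4).symm1 (hA _) (hA a)

/-- The duality on the representatives. -/
theorem exists_st (hss : HasProj R) (ω : X →ₗ[K] X →ₗ[K] K)
    (hnd : ∀ u, (∀ v, ω u v = 0) → u = 0) (hωR : ∀ g u v, ω (R g u) (R g v) = χ g * ω u v)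
    {s : ℕ} (W : Fin s → Submodule K X) (hW : ∀ i, SI R (W i))
    (hWW : ∀ i j, Tw R (fun _ => 1) (W i) (W j) → i = j)
    (hall : ∀ U, SI R U → ∃ i, Tw R (fun _ => 1) U (W i)) :
    ∃ st : Fin s → Fin s, (∀ i, st (st i) = i) ∧ (∀ i, Du R χ (W i) (W (st i))) ∧
      ∀ i j, Du R χ (W i) (W j) → j = st i := by
  have h1 : ∀ i, ∃ j, Du R χ (W i) (W j) := by
    intro i
    obtain ⟨u, hu, hu0⟩ := Submodule.exists_mem_ne_zero_of_ne_bot (hW i).1
    obtain ⟨U, hU, v, hv, huv⟩ := exists_ne_on hss (ω u) (fun h => hu0 (hnd u fun v => by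
      rw [h, LinearMap.zero_apply]))
    obtain ⟨j, hj⟩ := hall U hU
    have h2 : Du R χ U (W i) := Du.symm ⟨⊤, inferInstance, ω, ⟨u, hu, v, hv, huv⟩,
      fun g _ u _ v _ => hωR g u v⟩
    exact ⟨j, ((hj.symm1 hU (hW j)).du hU (hW j) h2).symm⟩
  choose st hst using h1
  have h2 : ∀ i j, Du R χ (W i) (W j) → j = st i := fun i j hij =>
    hWW _ _ (hij.tw (hW i) (hW j) (hW (st i)) (hst i))
  exact ⟨st, fun i => (h2 (st i) i (hst i).symm).symm, hst, h2⟩

end Pool.Agent.W522.U
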