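import Mathlib
import Pool.Agent.W522.U.B6
import Pool.Agent.W522.U.C2

/-!
# Unipotent elements and determinants
-/

set_option linter.unusedSectionVars false

namespace Pool.Agent.W522.U

open Module Pool.Agent.H204R3.SP Pool.Agent.H204R3.GP

noncomputable section

theorem unip_pow {K V G : Type*} [Field K] [AddCommGroup V] [Module K V] [Group G]
    (ρ : Representation K G V) (g : G) (h2 : (ρ g - 1) * (ρ g - 1) = 0) (k : ℕ) :
    ρ (g ^ k) = 1 + (k : K) • (ρ g - 1) := by
  induction k with
  | zero => rw [pow_zero, map_one, Nat.cast_zero, zero_smul, add_zero]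
  | succ k ih =>
    rw [pow_succ, map_mul, ih]
    have h3 : ρ g = 1 + (ρ g - 1) := by abel
    have h4 : (1 + (k : K) • (ρ g - 1)) * ρ g = (1 + (k : K) • (ρ g - 1)) * (1 + (ρ g - 1)) := by
      rw [← h3]
    rw [h4, add_mul, mul_add, mul_add, smul_mul_assoc, smul_mul_assoc, h2, smul_zero, mul_one,
      mul_one, one_mul, add_zero, Nat.cast_add, Nat.cast_one, add_smul, one_smul]
    abel

/-- Quadratic unipotent elements give elements of the Lie algebra of the Tate forms. -/
theorem unip_lieT {K V G : Type*} [Field K] [CharZero K] [AddCommGroup V] [Module K V] [Group G]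
    (ρ : Representation K G V) (χ : G →* K) (g : G) (h2 : (ρ g - 1) * (ρ g - 1) = 0)
    (hχ : χ g = 1) : ρ g - 1 ∈ lieT ρ χ := by
  classical
  intro m φ hφ v
  obtain ⟨Δ, hΔ, hφ⟩ := hφ
  obtain ⟨M, hM0, hM⟩ : ∃ M : ℕ, M ≠ 0 ∧ g ^ M ∈ Δ := by
    refine ⟨Δ.normalCore.index, ?_, Δ.normalCore_le (Δ.normalCore.pow_index_mem g)⟩
    have : Δ.normalCore.FiniteIndex := inferInstance
    exact this.index_ne_zero
  set N := ρ g - 1 with hN
  let P : Polynomial K := ∑ s : Finset (Fin m × Fin 2),
    Polynomial.C (φ (s.piecewise (fun l => N (v l)) v)) * Polynomial.X ^ s.card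
  have hP : ∀ k : ℕ, P.eval ((k * M : ℕ) : K) = φ v := by
    intro k
    have h3 : g ^ (k * M) ∈ Δ := by
      rw [mul_comm, pow_mul]
      exact Δ.pow_mem hM k
    have h4 := hφ _ h3 v
    have hχk : χ (g ^ (k * M)) = 1 := by rw [map_pow, hχ, one_pow]
    rw [hχk, one_pow, one_mul, unip_pow ρ g h2] at h4
    rw [← h4]
    have h5 : (fun l => (1 + ((k * M : ℕ) : K) • (ρ g - 1)) (v l)) =
        (fun l => ((k * M : ℕ) : K) • N (v l)) + v := by
      funext l
      rw [LinearMap.add_apply, LinearMap.smul_apply, Module.End.one_apply, Pi.add_apply, add_comm]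
    rw [h5, MultilinearMap.map_add_univ]
    simp only [P]
    rw [Polynomial.eval_finsetSum]
    refine Finset.sum_congr rfl fun s _ => ?_
    rw [Polynomial.eval_mul, Polynomial.eval_C, Polynomial.eval_pow, Polynomial.eval_X]
    have h6 : s.piecewise (fun l => ((k * M : ℕ) : K) • N (v l)) v =
        s.piecewise (fun l => ((k * M : ℕ) : K) • (s.piecewise (fun l => N (v l)) v) l)
          (s.piecewise (fun l => N (v l)) v) := by
      funext l
      by_cases hl : l ∈ s
      · rw [Finset.piecewise_eq_of_mem _ _ _ hl, Finset.piecewise_eq_of_mem _ _ _ hl,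
          Finset.piecewise_eq_of_mem _ _ _ hl]
      · rw [Finset.piecewise_eq_of_notMem _ _ _ hl, Finset.piecewise_eq_of_notMem _ _ _ hl,
          Finset.piecewise_eq_of_notMem _ _ _ hl]
    rw [h6, MultilinearMap.map_piecewise_smul, Finset.prod_const, smul_eq_mul, mul_comm]
  have hP0 : P - Polynomial.C (φ v) = 0 := by
    refine Polynomial.eq_zero_of_infinite_isRoot _ ?_
    refine Set.infinite_of_injective_forall_mem (f := fun k : ℕ => ((k * M : ℕ) : K)) ?_ ?_
    · intro a b hab
      have h3 : a * M = b * M := Nat.cast_injective (R := K) hab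
      exact Nat.eq_of_mul_eq_mul_right (Nat.pos_of_ne_zero hM0) h3
    · intro k
      change (P - Polynomial.C (φ v)).IsRoot _
      rw [Polynomial.IsRoot, Polynomial.eval_sub, hP, Polynomial.eval_C, sub_self]
  have h3 := congrArg (fun p : Polynomial K => p.coeff 1) hP0
  simp only [Polynomial.coeff_sub, Polynomial.coeff_zero, Polynomial.coeff_C_succ, sub_zero,
    P, Polynomial.finsetSum_coeff, Polynomial.coeff_C_mul, Polynomial.coeff_X_pow, mul_ite,
    mul_one, mul_zero] at h3
  rw [← h3, ← Finset.sum_filter]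
  refine Finset.sum_bij (fun k _ => {k}) ?_ ?_ ?_ ?_
  · intro k _
    simp
  · intro a _ b _ hab
    exact Finset.singleton_injective hab
  · intro s hs
    rw [Finset.mem_filter] at hs
    obtain ⟨a, rfl⟩ := Finset.card_eq_one.1 hs.2.symm
    exact ⟨a, Finset.mem_univ _, rfl⟩
  · intro k _
    rw [Finset.piecewise_singleton]

/-- The multiplier of a quadratic unipotent element. -/
theorem unip_chi {K V G : Type*} [Field K] [AddCommGroup V] [Module K V] [Group G]
    {ρ : Representation K G V} {χ : G →* K} (ω : V →ₗ[K] V →ₗ[K] K)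
    (hnd : ∀ u, (∀ v, ω u v = 0) → u = 0) (hωρ : ∀ g u v, ω (ρ g u) (ρ g v) = χ g * ω u v)
    (g : G) (h2 : (ρ g - 1) * (ρ g - 1) = 0) {u : V} (hu : (ρ g - 1) u ≠ 0) : χ g = 1 := by
  set N := ρ g - 1 with hN
  have hg : ∀ v, ρ g v = v + N v := by
    intro v
    rw [hN, LinearMap.sub_apply, Module.End.one_apply]
    abel
  have hNN : ∀ v, N (N v) = 0 := by
    intro v
    rw [← Module.End.mul_apply, h2]
    rfl
  obtain ⟨v, hv⟩ : ∃ v, ω (N u) v ≠ 0 := by
    by_contra h
    push Not at h
    exact hu (hnd _ h)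
  have h3 := hωρ g (N u) v
  have h4 := hωρ g (N u) (N v)
  rw [hg, hg, hNN, add_zero, map_add] at h3
  rw [hg, hg, hNN, hNN, add_zero, add_zero] at h4
  have h5 : (χ g - 1) ^ 2 * ω (N u) v = 0 := by
    linear_combination (1 - χ g) * h3 - h4
  have h6 := (mul_eq_zero.1 h5).resolve_right hv
  have h7 : χ g - 1 = 0 := by
    rwa [sq_eq_zero_iff] at h6
  exact sub_eq_zero.1 h7

theorem det_pair {K U U' : Type*} [Field K] [AddCommGroup U] [Module K U] [AddCommGroup U']
    [Module K U'] [FiniteDimensional K U] [FiniteDimensional K U']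
    (β : U →ₗ[K] Dual K U') (hβ : Function.Bijective β) (A : Module.End K U)
    (A' : Module.End K U') (c : K) (h : ∀ u v, β (A u) (A' v) = c * β u v) :
    LinearMap.det A * LinearMap.det A' = c ^ finrank K U := by
  let e := LinearEquiv.ofBijective β hβ
  have h1 : (e.symm.toLinearMap.comp (A'.dualMap.comp e.symm.symm.toLinearMap)) * A =
      c • (1 : Module.End K U) := by
    ext u
    rw [Module.End.mul_apply, LinearMap.comp_apply, LinearMap.comp_apply, LinearMap.smul_apply,
      Module.End.one_apply]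
    change e.symm (A'.dualMap (e (A u))) = c • u
    rw [LinearEquiv.symm_apply_eq, map_smul]
    ext v
    exact h u v
  have h2 := congrArg LinearMap.det h1
  rw [map_mul, LinearMap.det_conj, LinearMap.det_smul, LinearMap.det_dualMap] at h2
  rw [mul_comm, h2, map_one, mul_one]

theorem det_tw {K U U' : Type*} [Field K] [AddCommGroup U] [Module K U] [AddCommGroup U']
    [Module K U'] [FiniteDimensional K U] [FiniteDimensional K U'] (T : U ≃ₗ[K] U')
    (A : Module.End K U) (A' : Module.End K U') (c : K) (h : ∀ u, T (A u) = c • A' (T u)) :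
    LinearMap.det A = c ^ finrank K U * LinearMap.det A' := by
  have h1 : A = T.symm.toLinearMap.comp ((c • A').comp T.symm.symm.toLinearMap) := by
    ext u
    change A u = T.symm (c • A' (T u))
    rw [← h, LinearEquiv.symm_apply_apply]
  rw [h1, LinearMap.det_conj, LinearMap.det_smul, T.finrank_eq]

end

end Pool.Agent.W522.U
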