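import Mathlib
import Pool.Agent.W522.U.C4

/-!
# The form and the semisimplicity of the sum of the representatives
-/

set_option linter.unusedSectionVars false

namespace Pool.Agent.W522.U

open Module Pool.Agent.H204R3.SP Pool.Agent.H204R3.GP

noncomputable section

section proj

variable {K : Type*} [Field K] [CharZero K]
  {I : Type*} [Fintype I] [DecidableEq I] {E : I → Type*} [∀ i, AddCommGroup (E i)]
  [∀ i, Module K (E i)] [∀ i, FiniteDimensional K (E i)] {G : Type*} [Group G]
  {r : ∀ i, Representation K G (E i)}

/-- A finite sum of strongly irreducible representations is semisimple. -/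
theorem hasProj_pi (hirr : ∀ i, Irr (r i)) : HasProj (piRep r) := by
  classical
  intro Δ hΔ U hU
  let ES : Finset I → Submodule K (∀ i, E i) := fun S =>
    { carrier := {y | ∀ i, i ∉ S → y i = 0}
      add_mem' := fun ha hb i hi => by rw [Pi.add_apply, ha i hi, hb i hi, add_zero]
      zero_mem' := fun i _ => rfl
      smul_mem' := fun c a ha i hi => by rw [Pi.smul_apply, ha i hi, smul_zero] }
  have hESs : ∀ S, ∀ g : G, ∀ y ∈ ES S, piRep r g y ∈ ES S := by
    intro S g y hy i hi
    rw [piRep_apply, hy i hi, map_zero]
  let F : Finset (Finset I) := Finset.univ.filter (fun S => Disjoint U (ES S))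
  have hF : F.Nonempty := by
    refine ⟨∅, ?_⟩
    rw [Finset.mem_filter]
    refine ⟨Finset.mem_univ _, ?_⟩
    have h1 : ES ∅ = ⊥ := by
      rw [eq_bot_iff]
      intro y hy
      rw [Submodule.mem_bot]
      funext i
      exact hy i (Finset.notMem_empty i)
    rw [h1]
    exact disjoint_bot_right
  obtain ⟨S, hS, hmax⟩ := F.exists_max_image (fun S => S.card) hF
  have hdis : Disjoint U (ES S) := (Finset.mem_filter.1 hS).2
  have hsup : ∀ i, ∀ x : E i, (Pi.single i x : ∀ i, E i) ∈ U ⊔ ES S := by
    intro i
    have h1 := hirr i Δ hΔ ((U ⊔ ES S).comap (LinearMap.single K E i)) (by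
      intro g hg x hx
      rw [Submodule.mem_comap] at hx ⊢
      obtain ⟨a, ha, b, hb, hab⟩ := Submodule.mem_sup.1 hx
      have h2 : LinearMap.single K E i (r i g x) = piRep r g a + piRep r g b := by
        rw [← map_add, hab]
        exact (piRep_single r g i x).symm
      rw [h2]
      exact Submodule.add_mem_sup (hU g hg a ha) (hESs S g b hb))
    rcases h1 with h1 | h1
    · by_cases hi : i ∈ S
      · intro x
        refine Submodule.mem_sup_right fun j hj => ?_
        rw [Pi.single_eq_of_ne]
        rintro rfl
        exact hj hi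
      · exfalso
        have h2 : insert i S ∈ F := by
          rw [Finset.mem_filter]
          refine ⟨Finset.mem_univ _, ?_⟩
          rw [Submodule.disjoint_def]
          intro y hyU hyE
          have h3 : y i = 0 := by
            have h4 : y i ∈ (U ⊔ ES S).comap (LinearMap.single K E i) := by
              rw [Submodule.mem_comap]
              have h5 : LinearMap.single K E i (y i) = y + -(y - Pi.single i (y i)) := by
                rw [neg_sub, add_sub_cancel]
                rfl
              rw [h5]
              refine Submodule.add_mem_sup hyU ((ES S).neg_mem fun j hj => ?_)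
              rw [Pi.sub_apply]
              by_cases hij : j = i
              · subst hij
                rw [Pi.single_eq_same, sub_self]
              · rw [Pi.single_eq_of_ne hij, sub_zero]
                apply hyE
                rw [Finset.mem_insert]
                push Not
                exact ⟨hij, hj⟩
            rwa [h1, Submodule.mem_bot] at h4
          refine (Submodule.disjoint_def.1 hdis) y hyU fun j hj => ?_
          by_cases hij : j = i
          · subst hij
            exact h3
          · apply hyE
            rw [Finset.mem_insert]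
            push Not
            exact ⟨hij, hj⟩
        have h3 := hmax _ h2
        rw [Finset.card_insert_of_notMem hi] at h3
        omega
    · intro x
      have h2 : x ∈ (U ⊔ ES S).comap (LinearMap.single K E i) := by
        rw [h1]
        trivial
      exact h2
  have htop : U ⊔ ES S = ⊤ := by
    rw [eq_top_iff]
    intro y _
    rw [← Finset.univ_sum_single y]
    exact Submodule.sum_mem _ fun i _ => hsup i _
  have hc : IsCompl U (ES S) := ⟨hdis, codisjoint_iff.2 htop⟩
  refine ⟨U.projection (ES S) hc, fun v => ?_, fun u hu => ?_, fun g hg v => ?_⟩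
  · rw [Submodule.projection_apply]
    exact SetLike.coe_mem _
  · exact Submodule.projection_apply_of_mem_left hc hu
  · have h1 : v ∈ U ⊔ ES S := by
      rw [htop]
      trivial
    obtain ⟨a, ha, b, hb, rfl⟩ := Submodule.mem_sup.1 h1
    rw [map_add, map_add, map_add, Submodule.projection_apply_of_mem_left hc (hU g hg a ha),
      Submodule.projection_apply_of_mem_right hc (hESs S g b hb),
      Submodule.projection_apply_of_mem_left hc ha,
      Submodule.projection_apply_of_mem_right hc hb, add_zero, add_zero]

end proj

section form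

variable {K : Type*} [Field K] [CharZero K] {X : Type*} [AddCommGroup X] [Module K X]
  {s : ℕ} (W : Fin s → Submodule K X) (st : Fin s → Fin s)
  (B : Fin s → (X →ₗ[K] X →ₗ[K] K))

/-- The components of the form. -/
def cf (i j : Fin s) : X →ₗ[K] X →ₗ[K] K :=
  if j = st i then (if i < j then B i else if j < i then -(B j).flip else B i) else 0

/-- The form on the sum of the representatives. -/
def pf : (∀ i, W i) →ₗ[K] (∀ i, W i) →ₗ[K] K :=
  ∑ i, ∑ j, (cf st B i j).compl₁₂ ((W i).subtype.comp (LinearMap.proj i))
    ((W j).subtype.comp (LinearMap.proj j))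

theorem pf_apply (u v : ∀ i, W i) :
    pf W st B u v = ∑ i, ∑ j, cf st B i j (u i : X) (v j : X) := by
  unfold pf
  rw [LinearMap.sum_apply, LinearMap.sum_apply]
  refine Finset.sum_congr rfl fun i _ => ?_
  rw [LinearMap.sum_apply, LinearMap.sum_apply]
  rfl

theorem pf_right (u : ∀ i, W i) (j : Fin s) (y : W j) :
    pf W st B u (Pi.single j y) = ∑ i, cf st B i j (u i : X) (y : X) := by
  rw [pf_apply]
  refine Finset.sum_congr rfl fun i _ => ?_
  rw [Finset.sum_eq_single j]
  · rw [Pi.single_eq_same]
  · intro k _ hk
    rw [Pi.single_eq_of_ne hk, ZeroMemClass.coe_zero, map_zero]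
  · intro h
    exact absurd (Finset.mem_univ _) h

theorem pf_single (i : Fin s) (x : W i) (j : Fin s) (y : W j) :
    pf W st B (Pi.single i x) (Pi.single j y) = cf st B i j (x : X) (y : X) := by
  rw [pf_right, Finset.sum_eq_single i]
  · rw [Pi.single_eq_same]
  · intro k _ hk
    rw [Pi.single_eq_of_ne hk, ZeroMemClass.coe_zero, map_zero, LinearMap.zero_apply]
  · intro h
    exact absurd (Finset.mem_univ _) h

variable (hst : ∀ i, st (st i) = i)
  (hBalt : ∀ i, st i = i → ∀ u ∈ W i, B i u u = 0)
  (hBl : ∀ i j, j = st i → ∀ u ∈ W i, (∀ v ∈ W j, B i u v = 0) → u = 0)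
  (hBr : ∀ i j, j = st i → ∀ v ∈ W j, (∀ u ∈ W i, B i u v = 0) → v = 0)

include hst hBalt in
theorem cf_skew (i j : Fin s) (x : W i) (y : W j) :
    cf st B i j (x : X) (y : X) = -cf st B j i (y : X) (x : X) := by
  unfold cf
  by_cases h : j = st i
  · have h' : i = st j := by rw [h, hst]
    rw [if_pos h, if_pos h']
    rcases lt_trichotomy i j with h1 | h1 | h1
    · rw [if_pos h1, if_neg (not_lt.2 h1.le), if_pos h1, LinearMap.neg_apply, LinearMap.neg_apply,
        LinearMap.flip_apply, neg_neg]
    · subst h1
      rw [if_neg (lt_irrefl _), if_neg (lt_irrefl _)]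
      have h2 := hBalt i h.symm (x + y) ((W i).add_mem x.2 y.2)
      have h3 := hBalt i h.symm x x.2
      have h4 := hBalt i h.symm y y.2
      simp only [map_add, LinearMap.add_apply, h3, h4] at h2
      linear_combination h2
    · rw [if_neg (not_lt.2 h1.le), if_pos h1, if_pos h1, LinearMap.neg_apply, LinearMap.neg_apply,
        LinearMap.flip_apply]
  · have h' : i ≠ st j := fun h1 => h (by rw [h1, hst])
    rw [if_neg h, if_neg h', LinearMap.zero_apply, LinearMap.zero_apply, LinearMap.zero_apply,
      LinearMap.zero_apply, neg_zero]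

include hst hBalt in
theorem pf_alt (u : ∀ i, W i) : pf W st B u u = 0 := by
  have h1 : pf W st B u u = -pf W st B u u := by
    conv_lhs => rw [pf_apply, Finset.sum_comm]
    rw [pf_apply, ← Finset.sum_neg_distrib]
    refine Finset.sum_congr rfl fun i _ => ?_
    rw [← Finset.sum_neg_distrib]
    refine Finset.sum_congr rfl fun j _ => ?_
    rw [cf_skew W st B hst hBalt]
  have h2 : 2 * pf W st B u u = 0 := by linear_combination h1
  exact (mul_eq_zero.1 h2).resolve_left two_ne_zero

include hst hBl hBr in
theorem pf_nondeg (u : ∀ i, W i) (hu : ∀ w, pf W st B u w = 0) : u = 0 := by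
  funext i
  have h1 : ∀ y ∈ W (st i), cf st B i (st i) (u i : X) y = 0 := by
    intro y hy
    have h2 := hu (Pi.single (st i) ⟨y, hy⟩)
    rw [pf_right, Finset.sum_eq_single i] at h2
    · exact h2
    · intro k _ hk
      unfold cf
      rw [if_neg, LinearMap.zero_apply, LinearMap.zero_apply]
      intro h3
      apply hk
      rw [← hst k, ← h3, hst]
    · intro h
      exact absurd (Finset.mem_univ _) h
  apply Subtype.ext
  change (u i : X) = 0
  unfold cf at h1
  rw [if_pos rfl] at h1
  rcases lt_trichotomy i (st i) with h2 | h2 | h2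
  · rw [if_pos h2] at h1
    exact hBl i _ rfl _ (u i).2 h1
  · rw [if_neg (not_lt.2 h2.ge), if_neg (not_lt.2 h2.le)] at h1
    exact hBl i _ rfl _ (u i).2 h1
  · rw [if_neg (not_lt.2 h2.le), if_pos h2] at h1
    refine hBr (st i) i (hst i).symm _ (u i).2 fun y hy => ?_
    have h3 := h1 y hy
    rwa [LinearMap.neg_apply, LinearMap.neg_apply, LinearMap.flip_apply, neg_eq_zero] at h3

end form

end

end Pool.Agent.W522.U
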