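import Mathlib
import Pool.Agent.H204R3.GP.DescentG
import Pool.Agent.W522.U.C1

/-!
# Descent from an algebraic closure
-/

set_option linter.unusedSectionVars false

namespace Pool.Agent.W522.U

open Module TensorProduct Pool.Agent.H204R3.SP Pool.Agent.H204R3.GP

noncomputable section

/-- Semisimplicity after an algebraic extension of scalars. -/
theorem exists_proj_algebraic {k Ω : Type*} [Field k] [CharZero k] [Field Ω] [Algebra k Ω]
    [Algebra.IsAlgebraic k Ω] {V : Type*} [AddCommGroup V] [Module k V] [FiniteDimensional k V]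
    (S : Set (Module.End k V)) (hS : SemiUnder S) (U : Submodule Ω (Ω ⊗[k] V))
    (hU : ∀ T ∈ S, ∀ u ∈ U, T.baseChange Ω u ∈ U) :
    ∃ Q : (Ω ⊗[k] V) →ₗ[Ω] (Ω ⊗[k] V), (∀ w, Q w ∈ U) ∧ (∀ w ∈ U, Q w = w) ∧
      ∀ T ∈ S, ∀ w, Q (T.baseChange Ω w) = T.baseChange Ω (Q w) := by
  classical
  let b := Module.finBasis k V
  let e := b.baseChange Ω
  obtain ⟨p, hp'⟩ := exists_pr U
  let P₀ : (Ω ⊗[k] V) →ₗ[Ω] (Ω ⊗[k] V) := U.subtype.comp p
  have hP₀ : ∀ w, P₀ w ∈ U := fun w => SetLike.coe_mem _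
  have hP₀' : ∀ u ∈ U, P₀ u = u := by
    intro u hu
    change ((p u : U) : Ω ⊗[k] V) = u
    rw [hp' ⟨u, hu⟩]
  let S0 : Set Ω := Set.range (fun ij : Fin (finrank k V) × Fin (finrank k V) =>
    e.repr (P₀ (e ij.1)) ij.2)
  let F := IntermediateField.adjoin k S0
  have hF : FiniteDimensional k F := by
    have : Finite S0 := Set.finite_range _
    exact IntermediateField.finiteDimensional_adjoin (fun x _ =>
      (Algebra.IsAlgebraic.isAlgebraic (R := k) x).isIntegral)
  let j : (F ⊗[k] V) →ₗ[k] (Ω ⊗[k] V) := LinearMap.rTensor V F.val.toLinearMap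
  have hj : ∀ (c : F) (v : V), j (c ⊗ₜ[k] v) = (c : Ω) ⊗ₜ[k] v := fun _ _ => rfl
  have hjs : ∀ (c : F) (w : F ⊗[k] V), j (c • w) = (c : Ω) • j w := by
    intro c w
    induction w with
    | zero => simp only [smul_zero, map_zero]
    | add a b ha hb => rw [smul_add, map_add, ha, hb, map_add, smul_add]
    | tmul a v => rw [TensorProduct.smul_tmul', hj, hj, TensorProduct.smul_tmul']; rfl
  have hjT : ∀ (T : Module.End k V) (w : F ⊗[k] V), j (T.baseChange F w) =
      T.baseChange Ω (j w) := by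
    intro T w
    induction w with
    | zero => simp only [map_zero]
    | add a b ha hb => rw [map_add, map_add, ha, hb, map_add, map_add]
    | tmul a v => rw [LinearMap.baseChange_tmul, hj, hj, LinearMap.baseChange_tmul]
  let e₁ := b.baseChange F
  have hje : ∀ i, j (e₁ i) = e i := by
    intro i
    rw [Basis.baseChange_apply, Basis.baseChange_apply, hj]
    rfl
  have hinj : Function.Injective j :=
    Module.Flat.rTensor_preserves_injective_linearMap (M := V) _ F.val.injective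
  -- the coordinates of the projection
  let w : Fin (finrank k V) → F ⊗[k] V := fun i => ∑ l,
    (⟨e.repr (P₀ (e i)) l, IntermediateField.subset_adjoin k S0 ⟨(i, l), rfl⟩⟩ : F) • e₁ l
  have hw : ∀ i, j (w i) = P₀ (e i) := by
    intro i
    simp only [w]
    rw [map_sum]
    conv_rhs => rw [← e.sum_repr (P₀ (e i))]
    refine Finset.sum_congr rfl fun l _ => ?_
    rw [hjs, hje]
  -- the submodule over the finite extension
  let U₁ : Submodule F (F ⊗[k] V) :=
    { carrier := {w | j w ∈ U}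
      add_mem' := fun {a b} ha hb => by
        change j (a + b) ∈ U
        rw [map_add]
        exact U.add_mem ha hb
      zero_mem' := by
        change j 0 ∈ U
        rw [map_zero]
        exact U.zero_mem
      smul_mem' := fun c x hx => by
        change j (c • x) ∈ U
        rw [hjs]
        exact U.smul_mem _ hx }
  obtain ⟨Q₁, hQ1, hQ2, hQ3⟩ := exists_proj_baseChange S hS U₁ (fun T hT u hu => by
    change j (T.baseChange F u) ∈ U
    rw [hjT]
    exact hU T hT _ hu)
  let Q : (Ω ⊗[k] V) →ₗ[Ω] (Ω ⊗[k] V) := e.constr Ω (fun i => j (Q₁ (e₁ i)))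
  have hQe : ∀ i, Q (e i) = j (Q₁ (e₁ i)) := fun i => e.constr_basis Ω _ i
  have hQj : ∀ w, Q (j w) = j (Q₁ w) := by
    intro w
    conv_lhs => rw [← e₁.sum_repr w]
    conv_rhs => rw [← e₁.sum_repr w]
    rw [map_sum, map_sum, map_sum, map_sum]
    refine Finset.sum_congr rfl fun i _ => ?_
    rw [hjs, map_smul, map_smul, hjs, hje, hQe]
  refine ⟨Q, fun x => ?_, fun u hu => ?_, fun T hT x => ?_⟩
  · rw [← e.sum_repr x, map_sum]
    refine Submodule.sum_mem _ fun i _ => ?_
    rw [map_smul, hQe]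
    exact U.smul_mem _ (hQ1 _)
  · have h1 : u = ∑ i, e.repr u i • j (w i) := by
      conv_lhs => rw [← hP₀' u hu, ← e.sum_repr u, map_sum]
      refine Finset.sum_congr rfl fun i _ => ?_
      rw [map_smul, hw]
    conv_lhs => rw [h1]
    conv_rhs => rw [h1]
    rw [map_sum]
    refine Finset.sum_congr rfl fun i _ => ?_
    rw [map_smul, hQj, hQ2]
    change j (w i) ∈ U
    rw [hw]
    exact hP₀ _
  · have h1 : Q.comp (T.baseChange Ω) = (T.baseChange Ω).comp Q := by
      refine e.ext fun i => ?_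
      rw [LinearMap.comp_apply, LinearMap.comp_apply, ← hje, ← hjT, hQj, hQ3 T hT, hQj, hjT]
    exact congrArg (fun f : (Ω ⊗[k] V) →ₗ[Ω] (Ω ⊗[k] V) => f x) h1

variable {k Ω : Type*} [Field k] [Field Ω] [Algebra k Ω] {V : Type*} [AddCommGroup V] [Module k V]
  [CharZero k] [CharZero Ω] {ν : Type*} [Fintype ν] [DecidableEq ν] (b : Basis ν k V)
  {Γ : Type*} [Group Γ] (ρ : Representation k Γ V) (χ : Γ →* k)

/-- A component of a bilinear form over an extension. -/
def compG {β : Type*} (w : Basis β k Ω)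
    (B : (Ω ⊗[k] V) →ₗ[Ω] (Ω ⊗[k] V) →ₗ[Ω] Ω) (i : β) : V →ₗ[k] V →ₗ[k] k :=
  LinearMap.mk₂ k (fun u v => w.repr (B ((1 : Ω) ⊗ₜ[k] u) ((1 : Ω) ⊗ₜ[k] v)) i)
    (fun u u' v => by
      rw [TensorProduct.tmul_add, map_add, LinearMap.add_apply, map_add, Finsupp.add_apply])
    (fun c u v => by
      rw [TensorProduct.tmul_smul, ← algebraMap_smul Ω c ((1 : Ω) ⊗ₜ[k] u), map_smul,
        LinearMap.smul_apply, algebraMap_smul, map_smul, Finsupp.smul_apply])
    (fun u v v' => by
      rw [TensorProduct.tmul_add, map_add, map_add, Finsupp.add_apply])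
    (fun c u v => by
      rw [TensorProduct.tmul_smul, ← algebraMap_smul Ω c ((1 : Ω) ⊗ₜ[k] v), map_smul,
        algebraMap_smul, map_smul, Finsupp.smul_apply])

theorem compG_apply {β : Type*} (w : Basis β k Ω)
    (B : (Ω ⊗[k] V) →ₗ[Ω] (Ω ⊗[k] V) →ₗ[Ω] Ω) (i : β) (u v : V) :
    compG w B i u v = w.repr (B ((1 : Ω) ⊗ₜ[k] u) ((1 : Ω) ⊗ₜ[k] v)) i := rfl

theorem compG_tate {β : Type*} (w : Basis β k Ω)
    {B : (Ω ⊗[k] V) →ₗ[Ω] (Ω ⊗[k] V) →ₗ[Ω] Ω} (hB : IsTate2 (bcr ρ Ω) (bcc χ Ω) B) (i : β) :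
    IsTate2 ρ χ (compG w B i) := by
  obtain ⟨Δ, hΔ, h⟩ := hB
  refine ⟨Δ, hΔ, fun s hs u v => ?_⟩
  rw [compG_apply, compG_apply]
  have h1 := h s hs ((1 : Ω) ⊗ₜ[k] u) ((1 : Ω) ⊗ₜ[k] v)
  rw [bcr_tmul, bcr_tmul, bcc_apply] at h1
  rw [h1, ← Algebra.smul_def, map_smul, Finsupp.smul_apply, smul_eq_mul]

include b in
/-- Descent: if the Tate forms over the larger field are combinations of products of Tate forms of
degree two, so are the Tate forms over the smaller field. -/
theorem tate_descent_any {m : ℕ}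
    (hall : ∀ φ : MultilinearMap Ω (fun _ : Fin m × Fin 2 => Ω ⊗[k] V) Ω,
      IsTate (bcr ρ Ω) (bcc χ Ω) m φ → φ ∈ Submodule.span Ω (PT (bcr ρ Ω) (bcc χ Ω) m))
    (φ : MultilinearMap k (fun _ : Fin m × Fin 2 => V) k) (hφ : IsTate ρ χ m φ) :
    φ ∈ Submodule.span k (PT ρ χ m) := by
  classical
  have h1 := hall _ (bcm_tate (Ω := Ω) b ρ χ φ hφ)
  let w := Basis.ofVectorSpace k Ω
  let res : MultilinearMap Ω (fun _ : Fin m × Fin 2 => Ω ⊗[k] V) Ω →ₗ[Ω]
      ((Fin m × Fin 2 → V) → Ω) :=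
    { toFun := fun F v => F (fun l => (1 : Ω) ⊗ₜ[k] v l)
      map_add' := fun _ _ => rfl
      map_smul' := fun _ _ => rfl }
  let emb : MultilinearMap k (fun _ : Fin m × Fin 2 => V) k →ₗ[k]
      ((Fin m × Fin 2 → V) → k) :=
    { toFun := fun F v => F v
      map_add' := fun _ _ => rfl
      map_smul' := fun _ _ => rfl }
  have h2 : res (bcm (Ω := Ω) b φ) = fun v => algebraMap k Ω (φ v) := by
    funext v
    exact bcm_one b φ v
  have h3 : (fun v => algebraMap k Ω (φ v)) ∈ Submodule.span Ω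
      {g : (Fin m × Fin 2 → V) → Ω | ∃ s ∈ emb '' (PT ρ χ m),
        g = fun x => algebraMap k Ω (s x)} := by
    rw [← h2]
    have h4 : (Submodule.span Ω (PT (bcr ρ Ω) (bcc χ Ω) m)).map res ≤ Submodule.span Ω
      {g : (Fin m × Fin 2 → V) → Ω | ∃ s ∈ emb '' (PT ρ χ m),
        g = fun x => algebraMap k Ω (s x)} := by
      rw [Submodule.map_span, Submodule.span_le]
      rintro _ ⟨_, ⟨σ, B, hB, rfl⟩, rfl⟩
      -- finitely many components
      let F : Finset (Basis.ofVectorSpaceIndex k Ω) := Finset.univ.biUnion (fun l : Fin m =>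
        Finset.univ.biUnion (fun i : ν => Finset.univ.biUnion (fun i' : ν =>
          (w.repr (B l ((1 : Ω) ⊗ₜ[k] b i) ((1 : Ω) ⊗ₜ[k] b i'))).support)))
      have h6 : ∀ (l : Fin m) (u v : V), B l ((1 : Ω) ⊗ₜ[k] u) ((1 : Ω) ⊗ₜ[k] v) =
          ∑ i ∈ F, w i * algebraMap k Ω (compG w (B l) i u v) := by
        intro l u v
        have h7 : (w.repr (B l ((1 : Ω) ⊗ₜ[k] u) ((1 : Ω) ⊗ₜ[k] v))).support ⊆ F := by
          intro i hi
          by_contra hiF
          rw [Finsupp.mem_support_iff] at hi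
          apply hi
          have h8 : compG w (B l) i = 0 := by
            refine b.ext fun a => b.ext fun a' => ?_
            rw [compG_apply, LinearMap.zero_apply, LinearMap.zero_apply]
            by_contra h9
            apply hiF
            simp only [F, Finset.mem_biUnion, Finset.mem_univ, true_and]
            exact ⟨l, a, a', Finsupp.mem_support_iff.2 h9⟩
          rw [← compG_apply, h8]
          rfl
        conv_lhs => rw [← w.linearCombination_repr (B l ((1 : Ω) ⊗ₜ[k] u) ((1 : Ω) ⊗ₜ[k] v)),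
          Finsupp.linearCombination_apply, Finsupp.sum_of_support_subset _ h7 (fun i a => a • w i) (fun i _ => zero_smul _ _)]
        refine Finset.sum_congr rfl fun i _ => ?_
        rw [compG_apply, Algebra.smul_def, mul_comm]
      have h5 : res (mmG σ B) = ∑ g ∈ Fintype.piFinset (fun _ : Fin m => F), (∏ l, w (g l)) •
          (fun v => algebraMap k Ω (mmG σ (fun l => compG w (B l) (g l)) v)) := by
        funext v
        rw [Finset.sum_apply]
        change mmG σ B (fun l => (1 : Ω) ⊗ₜ[k] v l) = _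
        rw [mmG_apply]
        rw [Finset.prod_congr rfl (fun l _ => h6 l _ _), Finset.prod_univ_sum]
        refine Finset.sum_congr rfl fun g _ => ?_
        rw [Finset.prod_mul_distrib, Pi.smul_apply, smul_eq_mul, mmG_apply, map_prod]
      rw [h5]
      refine Submodule.sum_mem _ fun g _ => Submodule.smul_mem _ _ (Submodule.subset_span ?_)
      exact ⟨_, ⟨_, ⟨σ, _, fun l => compG_tate ρ χ w (hB l) (g l), rfl⟩, rfl⟩, rfl⟩
    exact h4 (Submodule.mem_map_of_mem h1)
  have h4 := span_descent_k _ _ h3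
  rw [← Submodule.map_span] at h4
  obtain ⟨φ', hφ', hφφ⟩ := h4
  have h6 : φ' = φ := MultilinearMap.ext fun v => congrFun hφφ v
  rwa [← h6]

end

end Pool.Agent.W522.U
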