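import Mathlib
import Pool.Agent.W522.U.C7
import Pool.Agent.W522.U.C8
import Pool.Agent.H204R3.GP.Defs

/-!
# From the algebraic closure to the given field
-/

set_option linter.unusedSectionVars false

namespace Pool.Agent.W522.U

open Module TensorProduct Pool.Agent.H204R3.SP Pool.Agent.H204R3.GP

noncomputable section

section closed

variable {K : Type*} [Field K] [CharZero K] [IsAlgClosed K] {X : Type*} [AddCommGroup X]
  [Module K X] [FiniteDimensional K X]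
  {Γ : Type*} [Group Γ] {R : Representation K Γ X} {χ : Γ →* K}

/-- The theorem over an algebraically closed field. -/
theorem main_X (hss : HasProj R)
    (ω : X →ₗ[K] X →ₗ[K] K) (hnd : ∀ u, (∀ v, ω u v = 0) → u = 0)
    (hωR : ∀ g u v, ω (R g u) (R g v) = χ g * ω u v)
    (hR1 : ∀ U, SI R U → 2 ≤ finrank K U → ∃ γ : Γ, (R γ - 1) * (R γ - 1) = 0 ∧
      finrank K (U.map (R γ - 1)) = 1)
    (hR2 : ∀ U, SI R U → finrank K U = 1 → ¬Du R χ U U)
    (hH : ∀ U U', SI R U → SI R U' → 2 ≤ finrank K U → ¬Du R χ U U → ∀ ψ : Γ → K,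
      Tw R ψ U U' → Tw R (fun _ => 1) U U')
    (hD : ∀ (s : ℕ) (U : Fin s → Submodule K X), (∀ i, SI R (U i)) →
      (∀ i j, ¬Du R χ (U i) (U j)) → (∀ i j, Tw R (fun _ => 1) (U i) (U j) → i = j) →
      ∀ Δ : Subgroup Γ, Δ.FiniteIndex → ∀ (h : ∀ g ∈ Δ, ∀ i, ∀ u ∈ U i, R g u ∈ U i)
        (a : Fin s → ℤ), (∀ (g : Γ) (hg : g ∈ Δ),
          ∏ i, (LinearMap.det ((R g).restrict (h g hg i)) ^ 2 / χ g ^ finrank K (U i)) ^ a i = 1) →
        a = 0)
    {m : ℕ} (φ : MultilinearMap K (fun _ : Fin m × Fin 2 => X) K) (hφ : IsTate R χ m φ) :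
    φ ∈ Submodule.span K (PT R χ m) := by
  obtain ⟨s, W, hW, hWW, hall⟩ := exists_reps hss
  obtain ⟨st, hst, hDu, hDu'⟩ := exists_st hss ω hnd hωR W hW hWW hall
  obtain ⟨Δ, hΔ, hWΔ, hE⟩ := main_E ω hnd hωR hR1 hR2 hH hD W hW hWW st hst hDu hDu'
  exact tate_of_reps hss W hW hall Δ hΔ hWΔ m (hE m) φ hφ

end closed

variable {k : Type*} [Field k] [CharZero k] {V : Type*} [AddCommGroup V] [Module k V]
  [FiniteDimensional k V]

theorem bcb_flip {Ω : Type*} [Field Ω] [Algebra k Ω] (ω : V →ₗ[k] V →ₗ[k] k) (u v : Ω ⊗[k] V) :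
    bcb Ω ω.flip v u = bcb Ω ω u v := by
  induction u with
  | zero => simp only [map_zero, LinearMap.zero_apply]
  | add u u' hu hu' => simp only [map_add, LinearMap.add_apply, hu, hu']
  | tmul a u =>
    induction v with
    | zero => simp only [map_zero, LinearMap.zero_apply]
    | add v v' hv hv' => simp only [map_add, LinearMap.add_apply, hv, hv']
    | tmul c v =>
      rw [bcb_tmul, bcb_tmul, LinearMap.flip_apply, mul_comm]

theorem bcb_nondeg_right {Ω : Type*} [Field Ω] [Algebra k Ω] (ω : V →ₗ[k] V →ₗ[k] k)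
    (hnd : ∀ u, (∀ v, ω v u = 0) → u = 0) (hnd' : ∀ u, (∀ v, ω u v = 0) → u = 0)
    (u : Ω ⊗[k] V) (hu : ∀ v, bcb Ω ω v u = 0) : u = 0 := by
  classical
  let b := Module.finBasis k V
  have hB : LinearMap.BilinForm.Nondegenerate ω := ⟨hnd', hnd⟩
  let d := LinearMap.BilinForm.dualBasis ω hB b
  have h1 : u = ∑ i, (b.baseChange Ω).repr u i • (b.baseChange Ω i) :=
    ((b.baseChange Ω).sum_repr u).symm
  rw [← LinearEquiv.map_eq_zero_iff (b.baseChange Ω).repr]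
  ext i
  rw [Finsupp.zero_apply]
  have h2 := hu ((1 : Ω) ⊗ₜ[k] d i)
  rw [h1, map_sum] at h2
  have h3 : ∀ l, bcb Ω ω ((1 : Ω) ⊗ₜ[k] d i) ((b.baseChange Ω).repr u l • (b.baseChange Ω l)) =
      if l = i then (b.baseChange Ω).repr u l else 0 := by
    intro l
    rw [map_smul, Basis.baseChange_apply, bcb_one, LinearMap.BilinForm.apply_dualBasis_left,
      smul_eq_mul]
    split_ifs
    · rw [map_one, mul_one]
    · rw [map_zero, mul_zero]
  rw [Finset.sum_congr rfl (fun l _ => h3 l), Finset.sum_ite_eq', if_pos (Finset.mem_univ _)] at h2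
  exact h2

theorem bcb_nondeg_left {Ω : Type*} [Field Ω] [Algebra k Ω] (ω : V →ₗ[k] V →ₗ[k] k)
    (hnd : ∀ u, (∀ v, ω v u = 0) → u = 0) (hnd' : ∀ u, (∀ v, ω u v = 0) → u = 0)
    (u : Ω ⊗[k] V) (hu : ∀ v, bcb Ω ω u v = 0) : u = 0 :=
  bcb_nondeg_right ω.flip hnd' hnd u fun v => by rw [bcb_flip, hu]

/-- A nondegenerate alternating form is nondegenerate on the left. -/
theorem left_nondeg (ω : V →ₗ[k] V →ₗ[k] k) (halt : ∀ v, ω v v = 0)
    (hnd : ∀ u, (∀ v, ω v u = 0) → u = 0) : ∀ u, (∀ v, ω u v = 0) → u = 0 := by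
  intro u hu
  refine hnd u fun v => ?_
  have h1 := halt (u + v)
  simp only [map_add, LinearMap.add_apply, halt, hu, zero_add, add_zero] at h1
  exact h1

variable {Γ : Type*} [Group Γ] (ρ : Representation k Γ V) (χ : Γ →* k)

theorem hasProj_bcr (Ω : Type*) [Field Ω] [Algebra k Ω] [Algebra.IsAlgebraic k Ω]
    (hss : FiniteIndexSemisimple ρ) : HasProj (bcr ρ Ω) := by
  intro Δ hΔ U hU
  have h1 : SemiUnder (ρ '' (Δ : Set Γ)) := by
    intro U hU
    obtain ⟨U', h1, h2⟩ := hss Δ hΔ U (fun s hs u hu => hU _ ⟨s, hs, rfl⟩ u hu)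
    refine ⟨U', ?_, h2⟩
    rintro _ ⟨s, hs, rfl⟩ u hu
    exact h1 s hs u hu
  obtain ⟨Q, hQ1, hQ2, hQ3⟩ := exists_proj_algebraic (Ω := Ω) _ h1 U (by
    rintro _ ⟨s, hs, rfl⟩ u hu
    exact hU s hs u hu)
  exact ⟨Q, hQ1, hQ2, fun s hs v => hQ3 _ ⟨s, hs, rfl⟩ v⟩

/-- From Tate forms over an extension to Tate classes. -/
theorem generated_of_ext (Ω : Type*) [Field Ω] [CharZero Ω] [Algebra k Ω]
    (hall : ∀ (m : ℕ) (φ : MultilinearMap Ω (fun _ : Fin m × Fin 2 => Ω ⊗[k] V) Ω),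
      IsTate (bcr ρ Ω) (bcc χ Ω) m φ → φ ∈ Submodule.span Ω (PT (bcr ρ Ω) (bcc χ Ω) m)) :
    TateGeneratedInDegreeTwo ρ χ := by
  classical
  intro n m f hf
  obtain ⟨Δ, hΔ, hf⟩ := hf
  have h1 := altG_of_tate_mem ρ χ (n := n) (m := m) (fun φ hφ =>
    tate_descent_any (Ω := Ω) (Module.finBasis k V) ρ χ (hall m) φ hφ) f Δ hΔ hf
  refine Submodule.span_mono ?_ h1
  rintro g ⟨B, hB, hg⟩
  refine ⟨B, fun l => ?_, hg⟩
  obtain ⟨Δ', hΔ', h2⟩ := hB l
  refine ⟨Δ', hΔ', fun s hs v => ?_⟩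
  rw [pow_one]
  exact h2 s hs v

end

end Pool.Agent.W522.U
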